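import Pool.Agent.K7.H58.VR.Push

/-!
# The Baire category step
-/

set_option autoImplicit false

namespace Pool.Agent.K7.H58.VR

open Complex Filter Topology Set Metric
open Pool.Agent.K7.H58.EP (isOpen_hp isConnected_hp hp_mono)
open scoped Nat

theorem analyticAt_iteratedDeriv {u : ℂ → ℂ} {z : ℂ} (hz : AnalyticAt ℂ u z) (n : ℕ) :
    AnalyticAt ℂ (iteratedDeriv n u) z := by
  rw [iteratedDeriv_eq_iterate]
  exact AnalyticAt.iterated_deriv hz n

theorem iteratedDeriv_rel {u k : ℂ → ℂ} {q : ℂ} {t : ℝ} (hu : AnalyticAt ℂ u q)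
    (hu' : AnalyticAt ℂ u (q + t * I)) (hk : AnalyticAt ℂ k q)
    (h : k =ᶠ[𝓝[≠] q] fun s => u s - u (s + t * I)) (n : ℕ) :
    iteratedDeriv n k q = iteratedDeriv n u q - iteratedDeriv n u (q + t * I) := by
  have hu2 : AnalyticAt ℂ (fun s => u (s + t * I)) q :=
    AnalyticAt.fun_comp (g := u) (f := fun s : ℂ => s + t * I) hu' (analyticAt_id.add analyticAt_const)
  have h1 : k =ᶠ[𝓝 q] fun s => u s - u (s + t * I) :=
    (ContinuousAt.eventuallyEq_nhds_iff_eventuallyEq_nhdsNE hk.continuousAt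
      (hu.sub hu2).continuousAt).1 h
  rw [h1.iteratedDeriv_eq n]
  rw [iteratedDeriv_fun_sub (hu.contDiffAt) (hu2.contDiffAt), iteratedDeriv_comp_add_const]

/-- **Baire step.** -/
theorem baire_step {c R : ℝ} {u : ℂ → ℂ} (hR : 0 < R)
    (hu : ∀ z : ℂ, c < z.re → z ∈ ball (c : ℂ) R → AnalyticAt ℂ u z) {k : ℝ → ℂ → ℂ}
    (hk : ∀ t ∈ Icc 0 (R / 2), MeromorphicAt (k t) (c : ℂ))
    (hrel : ∀ t ∈ Icc 0 (R / 2), ∀ z : ℂ, c < z.re → z ∈ ball (c : ℂ) (R / 2) →
      k t =ᶠ[𝓝[≠] z] fun s => u s - u (s + t * I)) :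
    ∃ (q₁ : ℂ) (ρ : ℝ), 0 < ρ ∧ c < q₁.re ∧ q₁.re - c < ρ ∧ q₁ ∈ ball (c : ℂ) R ∧
      ∃ K : ℝ, ∀ n : ℕ, ‖iteratedDeriv n u q₁‖ / n ! * ρ ^ n ≤ K := by
  classical
  set r : ℝ := R / 2 with hr
  have hr0 : 0 < r := by positivity
  have hin : ∀ q : ℂ, q ∈ ball (c : ℂ) r → ∀ t ∈ Icc 0 r, q + t * I ∈ ball (c : ℂ) R := by
    intro q hq t ht
    rw [mem_ball, dist_eq_norm] at hq ⊢
    have h1 : q + t * I - c = (q - c) + t * I := by ring
    rw [h1]
    refine lt_of_le_of_lt (norm_add_le _ _) ?_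
    have h2 : ‖(t : ℂ) * I‖ = t := by
      rw [norm_mul, norm_I, mul_one, Complex.norm_real, Real.norm_eq_abs, abs_of_nonneg ht.1]
    rw [h2]
    have := ht.2
    linarith
  set q : ℕ → ℂ := TopologicalSpace.denseSeq ℂ with hq
  set ρ : ℕ → ℝ := fun j => 1 / ((j : ℝ) + 1) with hρ
  have hρ0 : ∀ j, 0 < ρ j := fun j => by simp only [hρ]; positivity
  set D : ℕ × ℕ × ℕ → Set ℝ := fun i =>
    if c < (q i.1).re ∧ q i.1 ∈ ball (c : ℂ) r ∧ (q i.1).re - c < ρ i.2.1 then
      Icc 0 r ∩ ⋂ n : ℕ, {t : ℝ | t ∈ Icc 0 r ∧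
        ‖iteratedDeriv n u (q i.1) - iteratedDeriv n u (q i.1 + t * I)‖ ≤ i.2.2 * n ! / ρ i.2.1 ^ n}
    else ∅ with hD
  have hDclosed : ∀ i, IsClosed (D i) := by
    intro i
    simp only [hD]
    split_ifs with hi
    · refine isClosed_Icc.inter (isClosed_iInter fun n => ?_)
      have hcont : ContinuousOn (fun t : ℝ => ‖iteratedDeriv n u (q i.1) -
          iteratedDeriv n u (q i.1 + t * I)‖) (Icc 0 r) := by
        intro t ht
        have h1 : AnalyticAt ℂ (iteratedDeriv n u) (q i.1 + t * I) :=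
          analyticAt_iteratedDeriv (hu _ (by simpa using hi.1) (hin _ hi.2.1 t ht)) n
        have h2 : ContinuousAt (fun t : ℝ => q i.1 + (t : ℂ) * I) t := by fun_prop
        exact (continuousAt_const.sub (ContinuousAt.comp (f := fun t : ℝ => q i.1 + (t : ℂ) * I)
          h1.continuousAt h2)).norm.continuousWithinAt
      exact hcont.preimage_isClosed_of_isClosed isClosed_Icc isClosed_Iic
    · exact isClosed_empty
  have hcover : ∀ t ∈ Icc 0 r, ∃ i, t ∈ D i := by
    intro t ht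
    have h1 := (hk t ht).eventually_analyticAt
    rw [eventually_nhdsWithin_iff, Metric.eventually_nhds_iff_ball] at h1
    obtain ⟨ε', hε', h1⟩ := h1
    set ε : ℝ := min ε' r with hε
    have hε0 : 0 < ε := lt_min hε' hr0
    have hεr : ε ≤ r := min_le_right _ _
    have han : ∀ z : ℂ, z ≠ c → dist z c < ε → AnalyticAt ℂ (k t) z := fun z hz1 hz2 =>
      h1 z (lt_of_lt_of_le hz2 (min_le_left _ _)) hz1
    set z' : ℂ := c + (ε / 2 : ℝ) * I with hz'
    obtain ⟨j, hj⟩ : ∃ j : ℕ, ρ j < ε / 8 := exists_nat_one_div_lt (by positivity)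
    set δ : ℝ := min (ρ j) (ε / 16) with hδ
    have hδ0 : 0 < δ := lt_min (hρ0 j) (by positivity)
    obtain ⟨a, ha⟩ := (TopologicalSpace.denseRange_denseSeq ℂ).exists_mem_open
      (isOpen_ball.inter (isOpen_hp c) : IsOpen (ball z' δ ∩ {s : ℂ | c < s.re}))
      ⟨z' + (δ / 2 : ℝ), by
        constructor
        · rw [mem_ball, dist_eq_norm, add_sub_cancel_left, Complex.norm_real, Real.norm_eq_abs,
            abs_of_pos (by positivity)]
          linarith
        · change c < (z' + ((δ / 2 : ℝ) : ℂ)).re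
          rw [hz']
          simp
          linarith⟩
    obtain ⟨ha1, ha2⟩ := ha
    rw [mem_ball, dist_eq_norm] at ha1
    change c < (q a).re at ha2
    change ‖q a - z'‖ < δ at ha1
    have hδρ : δ ≤ ρ j := min_le_left _ _
    have hδε : δ ≤ ε / 16 := min_le_right _ _
    have hzc : ‖z' - c‖ = ε / 2 := by
      rw [hz', add_sub_cancel_left, norm_mul, norm_I, mul_one, Complex.norm_real, Real.norm_eq_abs,
        abs_of_pos (by positivity)]
    have hcond : c < (q a).re ∧ q a ∈ ball (c : ℂ) r ∧ (q a).re - c < ρ j := by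
      refine ⟨ha2, ?_, ?_⟩
      · rw [mem_ball, dist_eq_norm]
        have : q a - c = (q a - z') + (z' - c) := by ring
        rw [this]
        refine lt_of_le_of_lt (norm_add_le _ _) ?_
        rw [hzc]
        linarith
      · have h3 : (q a).re - c = (q a - z').re := by rw [hz']; simp
        rw [h3]
        exact lt_of_le_of_lt (Complex.re_le_norm _) (by linarith)
    have hball : ∀ z ∈ closedBall (q a) (ρ j), AnalyticAt ℂ (k t) z := by
      intro z hz
      rw [mem_closedBall, dist_eq_norm] at hz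
      have h4 : ‖z - z'‖ < ε / 4 := by
        have : z - z' = (z - q a) + (q a - z') := by ring
        rw [this]
        refine lt_of_le_of_lt (norm_add_le _ _) ?_
        linarith
      have h5 : ‖z - c‖ ≤ ‖z - z'‖ + ε / 2 := by
        have : z - c = (z - z') + (z' - c) := by ring
        rw [this, ← hzc]
        exact norm_add_le _ _
      refine han z ?_ (by rw [dist_eq_norm]; linarith)
      rintro rfl
      have h6 : ‖z' - c‖ < ε / 4 := by rw [norm_sub_rev]; exact h4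
      rw [hzc] at h6
      linarith
    -- Cauchy estimate
    have hdiff : DifferentiableOn ℂ (k t) (closedBall (q a) (ρ j)) := fun z hz =>
      (hball z hz).differentiableAt.differentiableWithinAt
    have hdc : DiffContOnCl ℂ (k t) (ball (q a) (ρ j)) := by
      refine ⟨hdiff.mono ball_subset_closedBall, ?_⟩
      rw [closure_ball _ (hρ0 j).ne']
      exact hdiff.continuousOn
    obtain ⟨C, hC⟩ := (isCompact_sphere (q a) (ρ j)).exists_bound_of_continuousOn
      (hdiff.continuousOn.mono sphere_subset_closedBall)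
    obtain ⟨N, hN⟩ := exists_nat_ge C
    refine ⟨(a, j, N), ?_⟩
    have hDa : D (a, j, N) = Icc 0 r ∩ ⋂ n : ℕ, {t : ℝ | t ∈ Icc 0 r ∧
        ‖iteratedDeriv n u (q a) - iteratedDeriv n u (q a + t * I)‖ ≤ N * n ! / ρ j ^ n} := by
      simp only [hD]
      rw [if_pos hcond]
    rw [hDa]
    refine ⟨ht, mem_iInter.2 fun n => ⟨ht, ?_⟩⟩
    have h7 := Complex.norm_iteratedDeriv_le_of_forall_mem_sphere_norm_le n (hρ0 j) hdc hC
    rw [iteratedDeriv_rel (hu _ ha2 (by
        have := hcond.2.1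
        exact ball_subset_ball (by linarith) this))
      (hu _ (by simpa using ha2) (hin _ hcond.2.1 t ht)) (hball _ (mem_closedBall_self (hρ0 j).le))
      (hrel t ht _ ha2 hcond.2.1) n] at h7
    refine h7.trans ?_
    have hn0 : (0 : ℝ) ≤ (n ! : ℝ) := by positivity
    have hp0 : 0 < ρ j ^ n := pow_pos (hρ0 j) n
    rw [div_le_div_iff_of_pos_right hp0, mul_comm]
    exact mul_le_mul_of_nonneg_right hN hn0
  -- Baire
  set f : Option (ℕ × ℕ × ℕ) → Set ℝ := fun o => o.elim (Ioo 0 r)ᶜ D with hf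
  have hfc : ∀ o, IsClosed (f o) := by
    intro o
    cases o with
    | none => exact isOpen_Ioo.isClosed_compl
    | some i => exact hDclosed i
  have hfU : ⋃ o, f o = univ := by
    rw [eq_univ_iff_forall]
    intro t
    by_cases ht : t ∈ Ioo 0 r
    · obtain ⟨i, hi⟩ := hcover t (Ioo_subset_Icc_self ht)
      exact mem_iUnion.2 ⟨some i, hi⟩
    · exact mem_iUnion.2 ⟨none, ht⟩
  have hdense := dense_iUnion_interior_of_closed hfc hfU
  obtain ⟨t₀, ht₀⟩ := hdense.inter_open_nonempty (Ioo 0 r) isOpen_Ioo ⟨r / 2, by constructor <;> linarith⟩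
  obtain ⟨ht₀1, ht₀2⟩ := ht₀
  obtain ⟨o, ho⟩ := mem_iUnion.1 ht₀2
  cases o with
  | none => exact absurd ht₀1 (interior_subset ho)
  | some i =>
    obtain ⟨ε, hε, hεb⟩ := Metric.isOpen_iff.1 isOpen_interior t₀ ho
    have hsub : ∀ t ∈ Icc t₀ (t₀ + ε / 2), t ∈ D i := by
      intro t ht
      have h1 : t ∈ ball t₀ ε := by
        rw [mem_ball, Real.dist_eq, abs_of_nonneg (by linarith [ht.1])]
        linarith [ht.2]
      exact interior_subset (hεb h1)
    have hcond : c < (q i.1).re ∧ q i.1 ∈ ball (c : ℂ) r ∧ (q i.1).re - c < ρ i.2.1 := by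
      by_contra hcon
      have h1 := hsub t₀ ⟨le_rfl, by linarith⟩
      simp only [hD, if_neg hcon] at h1
      exact h1
    have hDi : D i = Icc 0 r ∩ ⋂ n : ℕ, {t : ℝ | t ∈ Icc 0 r ∧
        ‖iteratedDeriv n u (q i.1) - iteratedDeriv n u (q i.1 + t * I)‖ ≤ i.2.2 * n ! / ρ i.2.1 ^ n} := by
      simp only [hD]
      rw [if_pos hcond]
    rw [hDi] at hsub
    have hIcc : ∀ t ∈ Icc t₀ (t₀ + ε / 2), t ∈ Icc 0 r := fun t ht => (hsub t ht).1
    refine ⟨q i.1 + t₀ * I, ρ i.2.1, hρ0 _, by simpa using hcond.1, by simpa using hcond.2.2,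
      hin _ hcond.2.1 t₀ (Ioo_subset_Icc_self ht₀1), ?_⟩
    refine bound_of_interval (b := t₀ + ε / 2) (N := i.2.2) (by linarith) (hρ0 _) (Nat.cast_nonneg _)
      (fun t ht => hu _ (by simpa using hcond.1) (hin _ hcond.2.1 t (hIcc t ht))) (fun t ht n => ?_)
    exact (mem_iInter.1 (hsub t ht).2 n).2

end Pool.Agent.K7.H58.VR
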