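import Pool.Agent.K7.H58.VR.Baire

/-!
# Crossing the boundary
-/

set_option autoImplicit false

namespace Pool.Agent.K7.H58.VR

open Complex Filter Topology Set Metric
open Pool.Agent.K7.H58.EP (isOpen_hp isConnected_hp hp_mono)
open scoped Nat

theorem tendsto_shift (z w : ℂ) : Tendsto (fun s : ℂ => s + w) (𝓝[≠] z) (𝓝[≠] (z + w)) := by
  rw [tendsto_nhdsWithin_iff]
  constructor
  · exact (((continuous_id.add continuous_const).tendsto z).mono_left nhdsWithin_le_nhds)
  · filter_upwards [self_mem_nhdsWithin] with s hs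
    intro h
    exact hs (add_right_cancel h)

theorem shift_near {f g : ℂ → ℂ} {z w : ℂ} (h : f =ᶠ[𝓝[≠] (z + w)] g) :
    (fun s => f (s + w)) =ᶠ[𝓝[≠] z] fun s => g (s + w) := (tendsto_shift z w).eventually h

/-- the analytic continuation of `F` to a disc that meets the boundary -/
theorem cross {c : ℝ} {F : ℂ → ℂ} (hF : MeromorphicOn F {s | c < s.re})
    (htop : ∀ z : ℂ, c < z.re → meromorphicOrderAt F z ≠ ⊤) {h : ℝ → ℂ → ℂ}
    (hh : ∀ t, MeromorphicOn (h t) univ)
    (hrel : ∀ t : ℝ, ∀ z : ℂ, c < z.re → F =ᶠ[𝓝[≠] z] fun s => h t s * F (s + t * I)) :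
    ∃ (q₁ : ℂ) (ρ : ℝ) (E : ℂ → ℂ), 0 < ρ ∧ c < q₁.re ∧ q₁.re - c < ρ ∧
      MeromorphicOn E (ball q₁ ρ) ∧ E =ᶠ[𝓝[≠] q₁] F := by
  have hc0 : ((c : ℂ)).re = c := Complex.ofReal_re c
  have h1 := no_accumulation hF htop hh hrel (c : ℂ)
  rw [eventually_nhdsWithin_iff, Metric.eventually_nhds_iff_ball] at h1
  obtain ⟨R, hR, hord⟩ := h1
  have hord' : ∀ z : ℂ, c < z.re → z ∈ ball (c : ℂ) R → meromorphicOrderAt F z = 0 := by
    intro z hz hzb
    refine hord z hzb ?_ hz
    intro h2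
    rw [mem_singleton_iff] at h2
    rw [h2, hc0] at hz
    exact lt_irrefl _ hz
  set F₁ := toMeromorphicNFOn F {s | c < s.re} with hF₁
  have hF₁F : ∀ z : ℂ, c < z.re → F₁ =ᶠ[𝓝[≠] z] F := fun z hz => hF.toMeromorphicNFOn_eq_self_on_nhdsNE hz
  have hF₁NF : ∀ z : ℂ, c < z.re → MeromorphicNFAt F₁ z := fun z hz =>
    meromorphicNFOn_toMeromorphicNFOn F {s | c < s.re} hz
  have hF₁o : ∀ z : ℂ, c < z.re → z ∈ ball (c : ℂ) R → meromorphicOrderAt F₁ z = 0 := by
    intro z hz hzb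
    rw [meromorphicOrderAt_congr (hF₁F z hz)]
    exact hord' z hz hzb
  have hF₁an : ∀ z : ℂ, c < z.re → z ∈ ball (c : ℂ) R → AnalyticAt ℂ F₁ z := by
    intro z hz hzb
    exact ((hF₁NF z hz).meromorphicOrderAt_nonneg_iff_analyticAt).1 (by rw [hF₁o z hz hzb])
  have hF₁ne : ∀ z : ℂ, c < z.re → z ∈ ball (c : ℂ) R → F₁ z ≠ 0 := by
    intro z hz hzb
    exact ((hF₁NF z hz).meromorphicOrderAt_eq_zero_iff).1 (hF₁o z hz hzb)
  set u := logDeriv F₁ with hu
  have huan : ∀ z : ℂ, c < z.re → z ∈ ball (c : ℂ) R → AnalyticAt ℂ u z := by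
    intro z hz hzb
    have h2 := hF₁an z hz hzb
    exact h2.deriv.div h2 (hF₁ne z hz hzb)
  -- the relation
  have hrel₁ : ∀ t : ℝ, ∀ z : ℂ, c < z.re → F₁ =ᶠ[𝓝[≠] z] fun s => h t s * F₁ (s + t * I) := by
    intro t z hz
    have hz' : c < (z + t * I).re := by simpa using hz
    have h2 := shift_near (hF₁F (z + t * I) hz')
    filter_upwards [hF₁F z hz, hrel t z hz, h2] with s hs1 hs2 hs3
    rw [hs1, hs2, hs3]
  have hinR : ∀ z : ℂ, z ∈ ball (c : ℂ) (R / 2) → ∀ t ∈ Icc 0 (R / 2), z + t * I ∈ ball (c : ℂ) R := by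
    intro q hq t ht
    rw [mem_ball, dist_eq_norm] at hq ⊢
    have h1 : q + t * I - c = (q - c) + t * I := by ring
    rw [h1]
    refine lt_of_le_of_lt (norm_add_le _ _) ?_
    have h2 : ‖(t : ℂ) * I‖ = t := by
      rw [norm_mul, norm_I, mul_one, Complex.norm_real, Real.norm_eq_abs, abs_of_nonneg ht.1]
    rw [h2]
    have := ht.2
    linarith
  have hkrel : ∀ t ∈ Icc 0 (R / 2), ∀ z : ℂ, c < z.re → z ∈ ball (c : ℂ) (R / 2) →
      logDeriv (h t) =ᶠ[𝓝[≠] z] fun s => u s - u (s + t * I) := by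
    intro t ht z hz hzb
    have h2 : ∀ᶠ s in 𝓝[≠] z, ∀ᶠ w in 𝓝 s, F₁ w = h t w * F₁ (w + t * I) := by
      rw [eventually_nhdsNE_eventually_nhds_iff]
      exact hrel₁ t z hz
    have h3 : ∀ᶠ s in 𝓝[≠] z, AnalyticAt ℂ (h t) s := (hh t z (mem_univ _)).eventually_analyticAt
    have hopen : IsOpen ({s : ℂ | c < s.re} ∩ ball (c : ℂ) (R / 2)) := (isOpen_hp c).inter isOpen_ball
    have h4 : ∀ᶠ s in 𝓝[≠] z, c < s.re ∧ s ∈ ball (c : ℂ) (R / 2) :=
      Filter.Eventually.filter_mono nhdsWithin_le_nhds (hopen.mem_nhds ⟨hz, hzb⟩)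
    filter_upwards [h2, h3, h4] with s hs2 hs3 hs4
    have hsR : s ∈ ball (c : ℂ) R := ball_subset_ball (by linarith) hs4.2
    have hs5 : c < (s + t * I).re := by simpa using hs4.1
    have hs6 := hinR s hs4.2 t ht
    have hs7 : F₁ s = h t s * F₁ (s + t * I) := hs2.self_of_nhds
    have hs8 : h t s ≠ 0 := by
      intro h0
      rw [h0, zero_mul] at hs7
      exact hF₁ne s hs4.1 hsR hs7
    have hs9 : logDeriv F₁ s = logDeriv (fun w => h t w * F₁ (w + t * I)) s := by
      rw [logDeriv_apply, logDeriv_apply, Filter.EventuallyEq.deriv_eq hs2, hs7]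
    have hd : DifferentiableAt ℂ (fun w => F₁ (w + t * I)) s :=
      DifferentiableAt.comp (g := F₁) (f := fun w : ℂ => w + t * I) s (hF₁an _ hs5 hs6).differentiableAt
        (differentiableAt_id.add_const _)
    have hne : (fun w => F₁ (w + t * I)) s ≠ 0 := hF₁ne _ hs5 hs6
    rw [logDeriv_mul s hs8 hne hs3.differentiableAt hd] at hs9
    have hs10 : logDeriv (fun w => F₁ (w + t * I)) s = u (s + t * I) := by
      rw [hu, logDeriv_apply, logDeriv_apply, deriv_comp_add_const]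
    rw [hs10] at hs9
    rw [hu]
    rw [hs9]
    ring
  obtain ⟨q₁, ρ, hρ, hq1, hq2, hq3, K, hK⟩ := baire_step hR huan
    (k := fun t => logDeriv (h t)) (fun t _ => (hh t c (mem_univ _)).logDeriv) hkrel
  obtain ⟨U, hU, hUu⟩ := extend_ball (huan q₁ hq1 hq3) hρ hK
  obtain ⟨V, hV0, hV⟩ := hU.isExactOn_ball.with_val_at q₁ 0
  set E : ℂ → ℂ := fun s => F₁ q₁ * Complex.exp (V s) with hE
  have hVd : DifferentiableOn ℂ V (ball q₁ ρ) := fun z hz => (hV z hz).differentiableAt.differentiableWithinAt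
  have hEd : DifferentiableOn ℂ E (ball q₁ ρ) := (hVd.cexp).const_mul _
  refine ⟨q₁, ρ, E, hρ, hq1, hq2, fun z hz => ((hEd.analyticOnNhd isOpen_ball) z hz).meromorphicAt, ?_⟩
  -- E = F₁ near q₁
  have hnear : ∀ᶠ s in 𝓝 q₁, U s = u s ∧ c < s.re ∧ s ∈ ball (c : ℂ) R ∧ s ∈ ball q₁ ρ := by
    have h2 : IsOpen ({s : ℂ | c < s.re} ∩ (ball (c : ℂ) R ∩ ball q₁ ρ)) :=
      (isOpen_hp c).inter (isOpen_ball.inter isOpen_ball)
    have h3 := h2.mem_nhds ⟨hq1, hq3, mem_ball_self hρ⟩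
    filter_upwards [hUu, h3] with s hs1 hs2
    exact ⟨hs1, hs2.1, hs2.2.1, hs2.2.2⟩
  obtain ⟨ε, hε, hb⟩ := Metric.eventually_nhds_iff_ball.1 hnear
  set Φ : ℂ → ℂ := fun s => F₁ s * Complex.exp (-V s) with hΦ
  have hΦd : ∀ s ∈ ball q₁ ε, HasDerivAt Φ 0 s := by
    intro s hs
    obtain ⟨h2, h3, h4, h5⟩ := hb s hs
    have h6 := (hF₁an s h3 h4).differentiableAt.hasDerivAt
    have h7 := ((hV s h5).neg).cexp
    have h8 := h6.mul h7
    have h9 : deriv F₁ s * Complex.exp (-V s) + F₁ s * (Complex.exp (-V s) * -U s) = 0 := by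
      rw [h2, hu, logDeriv_apply]
      field_simp [hF₁ne s h3 h4]
      ring
    change HasDerivAt Φ (deriv F₁ s * Complex.exp (-V s) + F₁ s * (Complex.exp (-V s) * -U s)) s at h8
    rw [h9] at h8
    exact h8
  have hconst : ∀ s ∈ ball q₁ ε, Φ s = Φ q₁ := by
    intro s hs
    have h2 := (convex_ball q₁ ε).is_const_of_fderivWithin_eq_zero (𝕜 := ℂ) (f := Φ)
      (fun z hz => (hΦd z hz).differentiableAt.differentiableWithinAt) (fun z hz => by
        rw [fderivWithin_of_isOpen isOpen_ball hz]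
        have := (hΦd z hz).hasFDerivAt.fderiv
        rw [this]
        ext
        simp) hs (mem_ball_self hε)
    exact h2
  have hEF₁ : ∀ s ∈ ball q₁ ε, E s = F₁ s := by
    intro s hs
    have h2 := hconst s hs
    simp only [hΦ, hV0, neg_zero, Complex.exp_zero, mul_one] at h2
    simp only [hE]
    rw [← h2, mul_assoc, ← Complex.exp_add, neg_add_cancel, Complex.exp_zero, mul_one]
  have h3 : E =ᶠ[𝓝[≠] q₁] F₁ := Filter.Eventually.filter_mono nhdsWithin_le_nhds
    (Metric.eventually_nhds_iff_ball.2 ⟨ε, hε, hEF₁⟩)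
  exact h3.trans (hF₁F q₁ hq1)

/-- **The abscissa of meromorphy moves to the left.** -/
theorem push {c : ℝ} {F : ℂ → ℂ} (hF : MeromorphicOn F {s | c < s.re})
    (htop : ∀ z : ℂ, c < z.re → meromorphicOrderAt F z ≠ ⊤) {h : ℝ → ℂ → ℂ}
    (hh : ∀ t, MeromorphicOn (h t) univ)
    (hrel : ∀ t : ℝ, ∀ z : ℂ, c < z.re → F =ᶠ[𝓝[≠] z] fun s => h t s * F (s + t * I)) :
    ∃ (η : ℝ) (G : ℂ → ℂ), 0 < η ∧ MeromorphicOn G {s | c - η < s.re} ∧
      ∀ (z : ℂ) (f : ℂ → ℂ), c < z.re → F =ᶠ[𝓝[≠] z] f → ContinuousAt f z → G z = f z := by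
  classical
  obtain ⟨q₁, ρ, E, hρ, hq1, hq2, hEm, hEF⟩ := cross hF htop hh hrel
  set η : ℝ := ρ - (q₁.re - c) with hη
  have hη0 : 0 < η := by simp only [hη]; linarith
  set tt : ℂ → ℝ := fun z => q₁.im - z.im with htt
  set G₁ : ℝ → ℂ → ℂ := fun t s => h t s * E (s + t * I) with hG₁
  -- the disc of G₁ t
  have hG₁m : ∀ t : ℝ, MeromorphicOn (G₁ t) (ball (q₁ - t * I) ρ) := by
    intro t z hz
    refine (hh t z (mem_univ _)).mul ?_
    refine (hEm (z + t * I) ?_).comp_analyticAt (g := fun s => s + t * I) (analyticAt_id.add analyticAt_const)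
    rw [mem_ball, dist_eq_norm] at hz ⊢
    have : z + t * I - q₁ = z - (q₁ - t * I) := by ring
    rw [this]
    exact hz
  have hEFall : ∀ z ∈ ball q₁ ρ, c < z.re → E =ᶠ[𝓝[≠] z] F := by
    intro z hz hzc
    have hconv : Convex ℝ (ball q₁ ρ ∩ {s : ℂ | c < s.re}) := (convex_ball q₁ ρ).inter (convex_halfSpace_re_gt c)
    exact eq_near_of_near hconv.isPreconnected (hEm.mono_set inter_subset_left)
      (hF.mono_set inter_subset_right) ⟨mem_ball_self hρ, hq1⟩ hEF ⟨hz, hzc⟩
  have hG₁F : ∀ t : ℝ, ∀ z ∈ ball (q₁ - t * I) ρ, c < z.re → G₁ t =ᶠ[𝓝[≠] z] F := by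
    intro t z hz hzc
    have hz' : z + t * I ∈ ball q₁ ρ := by
      rw [mem_ball, dist_eq_norm] at hz ⊢
      have : z + t * I - q₁ = z - (q₁ - t * I) := by ring
      rw [this]
      exact hz
    have h2 := shift_near (hEFall (z + t * I) hz' (by simpa using hzc))
    filter_upwards [h2, hrel t z hzc] with s hs1 hs2
    rw [hs2]
    simp only [hG₁]
    rw [hs1]
  have hmem : ∀ z : ℂ, c - η < z.re → z.re ≤ c → z ∈ ball (q₁ - tt z * I) ρ := by
    intro z hz hzc
    rw [mem_ball, dist_eq_norm]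
    have h2 : z - (q₁ - tt z * I) = ((z.re - q₁.re : ℝ) : ℂ) := by
      apply Complex.ext
      · simp
      · simp [htt]
    rw [h2, Complex.norm_real, Real.norm_eq_abs, abs_of_nonpos (by linarith)]
    simp only [hη] at hz
    linarith
  set g : ℂ → ℂ → ℂ := fun z => if c < z.re then F else G₁ (tt z) with hg
  obtain ⟨G, hG1, hG2⟩ := glue_germs (D := {s : ℂ | c - η < s.re}) (g := g)
    (fun z hz => by
      simp only [hg]
      split_ifs with hzc
      · exact hF z hzc
      · exact hG₁m _ z (hmem z hz (not_lt.1 hzc)))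
    (fun z hz => by
      by_cases hzc : c < z.re
      · have h2 : ∀ᶠ w in 𝓝[≠] z, c < w.re :=
          Filter.Eventually.filter_mono nhdsWithin_le_nhds ((isOpen_hp c).mem_nhds hzc)
        filter_upwards [h2] with w hw
        simp only [hg, if_pos hw, if_pos hzc]
        exact Filter.EventuallyEq.rfl
      · have hzb := hmem z hz (not_lt.1 hzc)
        have hopen : IsOpen (ball (q₁ - tt z * I) ρ ∩ {s : ℂ | c - η < s.re}) :=
          isOpen_ball.inter (isOpen_hp _)
        have h2 : ∀ᶠ w in 𝓝[≠] z, w ∈ ball (q₁ - tt z * I) ρ ∧ c - η < w.re :=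
          Filter.Eventually.filter_mono nhdsWithin_le_nhds (hopen.mem_nhds ⟨hzb, hz⟩)
        filter_upwards [h2] with w hw
        have hgz : g z = G₁ (tt z) := by simp only [hg, if_neg hzc]
        rw [hgz]
        by_cases hwc : c < w.re
        · have hgw : g w = F := by simp only [hg, if_pos hwc]
          rw [hgw]
          exact (hG₁F (tt z) w hw.1 hwc).symm
        · have hgw : g w = G₁ (tt w) := by simp only [hg, if_neg hwc]
          rw [hgw]
          have hwb := hmem w hw.2 (not_lt.1 hwc)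
          -- the point `Re q₁ + i Im w` lies in both discs, right of the line
          set pt : ℂ := q₁ - tt w * I with hpt
          have hptre : pt.re = q₁.re := by simp [hpt]
          have hptim : pt.im = w.im := by simp [hpt, htt]
          have hpt1 : pt ∈ ball (q₁ - tt w * I) ρ := mem_ball_self hρ
          have hpt2 : pt ∈ ball (q₁ - tt z * I) ρ := by
            have h3 := hw.1
            rw [mem_ball, dist_eq_norm] at h3 ⊢
            refine lt_of_le_of_lt ?_ h3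
            have h4 : pt - (q₁ - tt z * I) = ((w - (q₁ - tt z * I)).im : ℂ) * I := by
              apply Complex.ext
              · simp [hpt]
              · simp [hpt, htt]
            rw [h4, norm_mul, norm_I, mul_one, Complex.norm_real, Real.norm_eq_abs]
            exact Complex.abs_im_le_norm _
          have hconv : Convex ℝ (ball (q₁ - tt w * I) ρ ∩ ball (q₁ - tt z * I) ρ) :=
            (convex_ball _ _).inter (convex_ball _ _)
          have hptc : c < pt.re := by rw [hptre]; exact hq1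
          exact eq_near_of_near hconv.isPreconnected ((hG₁m _).mono_set inter_subset_left)
            ((hG₁m _).mono_set inter_subset_right) ⟨hpt1, hpt2⟩
            ((hG₁F _ pt hpt1 hptc).trans (hG₁F _ pt hpt2 hptc).symm) ⟨hwb, hw.1⟩)
  refine ⟨η, G, hη0, fun z hz => ?_, fun z f hzc hFf hf => ?_⟩
  · have hgm : MeromorphicAt (g z) z := by
      simp only [hg]
      split_ifs with hzc
      · exact hF z hzc
      · exact hG₁m _ z (hmem z hz (not_lt.1 hzc))
    exact hgm.congr (hG1 z hz).symm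
  · refine hG2 z f ?_ hf
    have hgz : g z = F := by simp only [hg, if_pos hzc]
    rw [hgz]
    exact hFf

end Pool.Agent.K7.H58.VR
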