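import Pool.Agent.K7.H58.EP.Defs

/-!
# Classes of unitary representations and their hulls

Continuation of the definitions of `Pool.Agent.K7.H58.EP.Defs` (the data `GLData n`, `GSpData n` of Satake
parameters, `unr`, `ind`, `GSpinRep`, `LGSp`, `LW`, `Continues`, `deg`).
-/

set_option autoImplicit false

namespace Pool.Agent.K7.H58.VR

open Pool.Agent.K7.H58.EP

/-- Polynomial growth of the eigenvalues and of their inverses. -/
def GrowthGL {n : ℕ} (α : GLData n) : Prop :=
  ∃ c : ℝ, ∀ (p : Nat.Primes) (i : Fin n),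
    ‖(α p i : ℂ)‖ ≤ ((p : ℕ) : ℝ) ^ c ∧ ‖((α p i)⁻¹ : ℂˣ).val‖ ≤ ((p : ℕ) : ℝ) ^ c

/-- Polynomial growth of the Satake parameters and of their inverses. -/
def GrowthGSp {n : ℕ} (b : GSpData n) : Prop :=
  ∃ c : ℝ, ∀ p : Nat.Primes,
    (‖((b p).1 : ℂ)‖ ≤ ((p : ℕ) : ℝ) ^ c ∧ ‖(((b p).1)⁻¹ : ℂˣ).val‖ ≤ ((p : ℕ) : ℝ) ^ c) ∧
    ∀ i : Fin n, ‖((b p).2 i : ℂ)‖ ≤ ((p : ℕ) : ℝ) ^ c ∧ ‖(((b p).2 i)⁻¹ : ℂˣ).val‖ ≤ ((p : ℕ) : ℝ) ^ c

/-- A class of (data of) representations of the groups `GL_n` and `GSp_{2n}`, `n ≥ 0`, closed under unitary induction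
from `σ |det|^{it} ⊗ π`, `t` real.  The example: all families that represent the Satake classes, at all but
finitely many primes, of a unitary automorphic representation. -/
structure UnitaryClass where
  /-- data of unitary automorphic representations of `GL_n` -/
  gl : ∀ n : ℕ, Set (GLData n)
  /-- data of unitary automorphic representations of `GSp_{2n}` -/
  gsp : ∀ n : ℕ, Set (GSpData n)
  growth_gl : ∀ (n : ℕ), ∀ α ∈ gl n, GrowthGL α
  growth_gsp : ∀ (n : ℕ), ∀ b ∈ gsp n, GrowthGSp b
  induced : ∀ (n m : ℕ), ∀ α ∈ gl n, ∀ b ∈ gsp m, ∀ t : ℝ, ind α b (t * Complex.I) ∈ gsp (n + m)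

/-- The twist of the data by the character `|λ|^w` of the similitude factor `λ`. -/
noncomputable def simTwist {n : ℕ} (w : ℂ) (b : GSpData n) : GSpData n := fun p => ((b p).1 * unr p w, (b p).2)

/-- The hull of a class: closure under twists `|λ|^w` and under induction from `σ |det|^w ⊗ π`, `w` any complex
number, `σ` in the class.  By Langlands, every automorphic representation of `GSp_{2n}` is a constituent of one
induced from a cuspidal one, so the hull of the class of unitary ones contains data for all automorphic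
representations. -/
inductive Hull (A : UnitaryClass) : (n : ℕ) → GSpData n → Prop
  | base {n : ℕ} {b : GSpData n} (hb : b ∈ A.gsp n) : Hull A n b
  | twist {n : ℕ} {b : GSpData n} (w : ℂ) (hb : Hull A n b) : Hull A n (simTwist w b)
  | induced {n m : ℕ} {α : GLData n} {b : GSpData m} (w : ℂ) (hα : α ∈ A.gl n) (hb : Hull A m b) :
      Hull A (n + m) (ind α b w)

/-- A class of unitary representations with the further closure properties known for the representations in the
spectrum of `GL_n` and `GSp_{2n}` over `ℚ`: central characters, `GSp_0 = GL_1`, and the standard transfer from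
`GSp_{2n}` to `GL_{2n+1}` (Arthur 2013). -/
structure UnitarySystem extends UnitaryClass where
  trivial : (fun _ _ => 1) ∈ gl 1
  /-- the central character of `σ` and its powers are Hecke characters -/
  central : ∀ (n : ℕ), ∀ α ∈ gl n, ∀ k : ℤ, (fun p _ => (∏ i, α p i) ^ k) ∈ gl 1
  /-- the central character of `π` and its powers are Hecke characters -/
  similitude : ∀ (n : ℕ), ∀ b ∈ gsp n, ∀ k : ℤ, (fun p _ => ((b p).1 ^ 2 * ∏ i, (b p).2 i) ^ k) ∈ gl 1
  /-- `GSp_0 = GL_1` -/
  gsp_zero : ∀ b : GSpData 0, b ∈ gsp 0 ↔ (fun p _ => (b p).1) ∈ gl 1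
  /-- the transfer of `π` to `GL_{2n+1}` by the standard representation -/
  standard : ∀ (n : ℕ), ∀ b ∈ gsp n,
    (fun p => (Fin.snoc (Fin.append (b p).2 (fun i => ((b p).2 i)⁻¹)) 1 : Fin (n + n + 1) → ℂˣ)) ∈ gl (n + n + 1)

end Pool.Agent.K7.H58.VR
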