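import Pool.Agent.K7.H58.VR.MainU

/-!
# The unitary representations suffice
-/

set_option autoImplicit false

namespace Pool.Agent.K7.H58.VR

open Complex Filter Topology Set Metric MeasureTheory
open Pool.Agent.K7.H58.EP

variable {n m : ℕ}

/-- Q1 for a class implies Q1 for its hull -/
theorem class_suffices {A : UnitaryClass}
    (h : ∀ n : ℕ, 1 ≤ n → ∀ b ∈ A.gsp n, ∀ ρ : GSpinRep n, ∃ S : Finset Nat.Primes, Continues (LGSp S b ρ)) :
    ∀ n : ℕ, 1 ≤ n → ∀ b : GSpData n, Hull A n b → ∀ (ρ : GSpinRep n) (S : Finset Nat.Primes),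
      Continues (LGSp S b ρ) := by
  intro n hn b hb ρ S
  refine (continues_XW' (hull_growth hb) ρ.mult S).2 ?_
  refine hull_good ?_ hb n b Out.refl hn ρ
  intro M hM b' hb' ρ'
  obtain ⟨S', hS'⟩ := h M hM b' hb' ρ'
  exact (continues_XW' (PBD_of_growth (A.growth_gsp _ _ hb')) ρ'.mult S').1 hS'

/-- the spin L-functions of the class suffice -/
theorem spin_suffices {A : UnitarySystem} {𝒩 : Set ℕ} (h𝒩 : 𝒩.Infinite)
    (h : ∀ n ∈ 𝒩, 1 ≤ n → ∀ b ∈ A.gsp n, ∃ S : Finset Nat.Primes, Continues (LGSp S b (spin n))) :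
    ∀ n : ℕ, 1 ≤ n → ∀ b : GSpData n, Hull A.toUnitaryClass n b → ∀ (ρ : GSpinRep n) (S : Finset Nat.Primes),
      Continues (LGSp S b ρ) := by
  have hgood : SpinGood A 𝒩 := by
    intro n hn h1 b hb
    rw [← XS_spin]
    obtain ⟨S, hS⟩ := h n hn h1 b hb
    exact (continues_XW' (PBD_of_growth (A.growth_gsp _ _ hb)) (spin n).mult S).1 hS
  refine class_suffices (A := A.toUnitaryClass) fun n _ b hb ρ => ⟨∅, ?_⟩
  refine (continues_XW' (PBD_of_growth (A.growth_gsp _ _ hb)) ρ.mult ∅).2 ?_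
  change XS b ρ ∈ Good
  obtain ⟨x, hx, y, hy, hxy⟩ := XS_mem hb ρ
  rw [hxy]
  exact Good.add_mem (KK_good h𝒩 hgood hx) (spin_mul_KK h𝒩 hgood hy hb)

/-- rigidity, with any finite sets of primes -/
theorem rigidity_vertical' {α : GLData n} (hα : GrowthGL α) {b : GSpData m} (hb : GrowthGSp b)
    (ρ : GSpinRep (n + m)) {a : ℝ} {T : Set ℝ} (hT : MeasurableSet T) (hT0 : 0 < volume T)
    (h : ∀ t ∈ T, ∃ S : Finset Nat.Primes, Continues (LGSp S (ind α b (a + t * I)) ρ)) (S : Finset Nat.Primes) :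
    (∀ z : ℂ, Continues (LGSp S (ind α b z) ρ)) ∧
      ∀ j : ℤ, Continues (LW S (ind α b 0) (ρ.mult.filter fun l => deg (n := n) (m := m) l = j)) := by
  refine rigidity_vertical (a := a) (PBG_of_growth hα) (PBD_of_growth hb) ρ.mult S hT hT0 fun t ht => ?_
  obtain ⟨S', hS'⟩ := h t ht
  have h1 : PBD (ind α b (a + t * I)) := PBD.ind (PBG_of_growth hα) (PBD_of_growth hb) _
  exact (continues_XW' h1 ρ.mult S).2 ((continues_XW' h1 ρ.mult S').1 hS')

end Pool.Agent.K7.H58.VR
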