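import Pool.Agent.K7.H58.EP.Glue

/-!
# Gluing of germs of meromorphic functions
-/

set_option autoImplicit false

namespace Pool.Agent.K7.H58.VR

open Complex Filter Topology Set Metric
open Pool.Agent.K7.H58.EP (isOpen_hp isConnected_hp hp_mono)

/-- identity theorem -/
theorem eq_near_of_near {U : Set ℂ} (hU : IsPreconnected U) {f g : ℂ → ℂ} (hf : MeromorphicOn f U)
    (hg : MeromorphicOn g U) {u₀ : ℂ} (hu₀ : u₀ ∈ U) (h : f =ᶠ[𝓝[≠] u₀] g) {u : ℂ} (hu : u ∈ U) :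
    f =ᶠ[𝓝[≠] u] g := by
  have hfg : MeromorphicOn (f - g) U := hf.sub hg
  have htop : ∀ v : U, meromorphicOrderAt (f - g) v = ⊤ := by
    by_contra hcon
    push Not at hcon
    have h1 := (hfg.exists_meromorphicOrderAt_ne_top_iff_forall ⟨⟨u₀, hu₀⟩, hU⟩).1 hcon
    apply h1 ⟨u₀, hu₀⟩
    rw [meromorphicOrderAt_eq_top_iff]
    filter_upwards [h] with z hz
    simp [hz]
  have h4 := htop ⟨u, hu⟩
  rw [meromorphicOrderAt_eq_top_iff] at h4
  filter_upwards [h4] with z hz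
  exact sub_eq_zero.1 hz

/-- gluing of germs -/
theorem glue_germs {D : Set ℂ} {g : ℂ → ℂ → ℂ} (hg : ∀ z ∈ D, MeromorphicAt (g z) z)
    (hc : ∀ z ∈ D, ∀ᶠ w in 𝓝[≠] z, g w =ᶠ[𝓝[≠] w] g z) :
    ∃ F : ℂ → ℂ, (∀ z ∈ D, F =ᶠ[𝓝[≠] z] g z) ∧
      ∀ (z : ℂ) (f : ℂ → ℂ), g z =ᶠ[𝓝[≠] z] f → ContinuousAt f z → F z = f z := by
  refine ⟨fun w => limUnder (𝓝[≠] w) (g w), fun z hz => ?_, fun z f hzf hf => ?_⟩
  · filter_upwards [hc z hz, (hg z hz).eventually_analyticAt] with w h1 h2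
    have h3 : Tendsto (g z) (𝓝[≠] w) (𝓝 (g z w)) := h2.continuousAt.continuousWithinAt
    exact (h3.congr' h1.symm).limUnder_eq
  · have h3 : Tendsto f (𝓝[≠] z) (𝓝 (f z)) := hf.continuousWithinAt
    exact (h3.congr' hzf.symm).limUnder_eq

theorem near_of_far {f g : ℂ → ℂ} {d : ℝ} (h : ∀ s : ℂ, d < s.re → f s = g s) {z : ℂ} (hz : d < z.re) :
    f =ᶠ[𝓝[≠] z] g :=
  Filter.Eventually.filter_mono nhdsWithin_le_nhds
    (Filter.mem_of_superset ((isOpen_hp d).mem_nhds hz) fun s hs => h s hs)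

/-- `f` extends to a meromorphic function on `Re s > c` -/
def Ext (f : ℂ → ℂ) (c : ℝ) : Prop :=
  ∃ F : ℂ → ℂ, MeromorphicOn F {s | c < s.re} ∧ ∃ d : ℝ, ∀ s : ℂ, d < s.re → F s = f s

theorem Ext.mono {f : ℂ → ℂ} {c c' : ℝ} (h : Ext f c) (hc : c ≤ c') : Ext f c' := by
  obtain ⟨F, hF, hd⟩ := h
  exact ⟨F, hF.mono_set (hp_mono hc), hd⟩

theorem ext_limit {f : ℂ → ℂ} {a c : ℝ} (hf : DifferentiableOn ℂ f {s | a < s.re})
    (h : ∀ c' : ℝ, c < c' → Ext f c') : Ext f c := by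
  choose! G hG d hd using h
  have hfm : MeromorphicOn f {s | a < s.re} := fun s hs =>
    ((hf.analyticOnNhd (isOpen_hp a)) s hs).meromorphicAt
  set e : ℂ → ℝ := fun z => (c + z.re) / 2 with he
  have he1 : ∀ z : ℂ, c < z.re → c < e z ∧ e z < z.re := by
    intro z hz
    simp only [he]
    constructor <;> linarith
  obtain ⟨F, hF1, hF2⟩ := glue_germs (D := {s : ℂ | c < s.re}) (g := fun z => G (e z))
    (fun z hz => hG (e z) (he1 z hz).1 z (he1 z hz).2) (by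
      intro z hz
      have h1 : ∀ᶠ w in 𝓝[≠] z, e z < w.re ∧ c < w.re := by
        refine Filter.Eventually.filter_mono nhdsWithin_le_nhds ?_
        exact ((isOpen_hp (e z)).inter (isOpen_hp c)).mem_nhds ⟨(he1 z hz).2, hz⟩
      filter_upwards [h1] with w hw
      have hw' := he1 w hw.2
      refine Pool.Agent.K7.H58.EP.eq_near (a := max (e w) (e z)) (d := max (d (e w)) (d (e z))) ?_ ?_ ?_
        (max_lt hw'.2 hw.1)
      · exact (hG (e w) hw'.1).mono_set (hp_mono (le_max_left _ _))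
      · exact (hG (e z) (he1 z hz).1).mono_set (hp_mono (le_max_right _ _))
      · intro s hs
        rw [hd (e w) hw'.1 s (lt_of_le_of_lt (le_max_left _ _) hs),
          hd (e z) (he1 z hz).1 s (lt_of_le_of_lt (le_max_right _ _) hs)])
  refine ⟨F, fun z hz => ?_, max a c, fun s hs => ?_⟩
  · exact (hG (e z) (he1 z hz).1 z (he1 z hz).2).congr (hF1 z hz).symm
  · have hsa : a < s.re := lt_of_le_of_lt (le_max_left _ _) hs
    have hsc : c < s.re := lt_of_le_of_lt (le_max_right _ _) hs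
    refine hF2 s f ?_ ((hf.analyticOnNhd (isOpen_hp a)) s hsa).continuousAt
    refine Pool.Agent.K7.H58.EP.eq_near (a := max (e s) a) (d := max (d (e s)) a) ?_ ?_ ?_
      (max_lt (he1 s hsc).2 hsa)
    · exact (hG (e s) (he1 s hsc).1).mono_set (hp_mono (le_max_left _ _))
    · exact hfm.mono_set (hp_mono (le_max_right _ _))
    · intro z hz
      rw [hd (e s) (he1 s hsc).1 z (lt_of_le_of_lt (le_max_left _ _) hz)]

/-- if the abscissa can always be moved to the left, the function continues to the plane -/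
theorem ext_all {f : ℂ → ℂ} {a c : ℝ} (hf : DifferentiableOn ℂ f {s | a < s.re}) (h0 : Ext f c)
    (h : ∀ c : ℝ, Ext f c → ∃ η : ℝ, 0 < η ∧ Ext f (c - η)) (b : ℝ) : Ext f b := by
  by_contra hb
  have hbdd : ∀ c', Ext f c' → b ≤ c' := by
    intro c' hc'
    by_contra hcon
    push Not at hcon
    exact hb (hc'.mono hcon.le)
  set S : Set ℝ := {c' | Ext f c'} with hS
  have hSn : S.Nonempty := ⟨c, h0⟩
  have hSb : BddBelow S := ⟨b, fun c' hc' => hbdd c' hc'⟩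
  have h1 : Ext f (sInf S) := by
    refine ext_limit hf fun c' hc' => ?_
    obtain ⟨x, hx, hxc⟩ := exists_lt_of_csInf_lt hSn hc'
    exact Ext.mono hx hxc.le
  obtain ⟨η, hη, h2⟩ := h _ h1
  have h3 := csInf_le hSb h2
  linarith

theorem ext_univ {f : ℂ → ℂ} {a : ℝ} (hf : DifferentiableOn ℂ f {s | a < s.re}) (h : ∀ c, Ext f c) :
    ∃ F : ℂ → ℂ, MeromorphicOn F univ ∧ ∀ s : ℂ, a < s.re → F s = f s := by
  refine Pool.Agent.K7.H58.EP.glue hf fun M => ?_
  obtain ⟨F, hF, d, hd⟩ := h (-(M : ℝ))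
  exact ⟨F, hF, d, hd⟩

end Pool.Agent.K7.H58.VR
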