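import Pool.Agent.K7.H58.VR.Iso
import Pool.Agent.K7.H58.VR.Defs

/-!
# From unitary to all representations
-/

set_option autoImplicit false

namespace Pool.Agent.K7.H58.VR

open Complex Filter Topology Set Metric MeasureTheory
open Pool.Agent.K7.H58.EP

variable {n m : ℕ}

/-- polynomial growth -/
def PBD (b : GSpData n) : Prop :=
  (PB (fun p => (b p).1) ∧ PB (fun p => ((b p).1)⁻¹)) ∧
    ∀ i, PB (fun p => (b p).2 i) ∧ PB (fun p => ((b p).2 i)⁻¹)

/-- polynomial growth -/
def PBG (α : GLData n) : Prop := ∀ i, PB (fun p => α p i) ∧ PB (fun p => (α p i)⁻¹)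

theorem PBD_of_growth {b : GSpData n} (h : GrowthGSp b) : PBD b := by
  obtain ⟨c, hc⟩ := h
  exact ⟨⟨⟨c, fun p => (hc p).1.1⟩, ⟨c, fun p => (hc p).1.2⟩⟩,
    fun i => ⟨⟨c, fun p => ((hc p).2 i).1⟩, ⟨c, fun p => ((hc p).2 i).2⟩⟩⟩

theorem PBG_of_growth {α : GLData n} (h : GrowthGL α) : PBG α := by
  obtain ⟨c, hc⟩ := h
  exact fun i => ⟨⟨c, fun p => (hc p i).1⟩, ⟨c, fun p => (hc p i).2⟩⟩

theorem PBD.weight {b : GSpData n} (h : PBD b) (l : ℤ × (Fin n → ℤ)) :
    PB (fun p => (b p).1 ^ l.1 * ∏ i, (b p).2 i ^ l.2 i) :=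
  (h.1.1.zpow h.1.2 l.1).mul (PB.prod _ fun i _ => ((h.2 i).1.zpow (h.2 i).2 (l.2 i)))

theorem continues_XW' {b : GSpData m} (hb : PBD b) (M : (ℤ × (Fin m → ℤ)) →₀ ℕ) (S : Finset Nat.Primes) :
    Continues (LW S b M) ↔ XW b M ∈ Good :=
  continues_iff (S := S) (c := M) fun l _ => hb.weight l

theorem XW_tame {b : GSpData m} (hb : PBD b) (M : (ℤ × (Fin m → ℤ)) →₀ ℕ) : XW b M ∈ Tm :=
  XX_tame fun l _ => hb.weight l

theorem unr_inv (p : Nat.Primes) (w : ℂ) : (unr p w)⁻¹ = unr p (-w) := by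
  have h := unr_zpow p w (-1)
  rw [zpow_neg_one] at h
  rw [h]
  congr 1
  push_cast
  ring

theorem PB_mul_unr {β : Nat.Primes → ℂˣ} (h : PB β ∧ PB (fun p => (β p)⁻¹)) (w : ℂ) :
    PB (fun p => β p * unr p w) ∧ PB (fun p => (β p * unr p w)⁻¹) := by
  refine ⟨h.1.mul (PB.unr w), ?_⟩
  have h1 := h.2.mul (PB.unr (-w))
  simpa only [mul_inv, unr_inv] using h1

/-- multiplication of the parameters by powers of `p^{-z}` -/
noncomputable def scl (δ : Fin n → ℤ) (z : ℂ) (b : GSpData n) : GSpData n :=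
  fun p => ((b p).1, fun i => (b p).2 i * unr p (δ i * z))

theorem PBD.scl {δ : Fin n → ℤ} {z : ℂ} {b : GSpData n} (h : PBD b) : PBD (scl δ z b) :=
  ⟨h.1, fun i => PB_mul_unr (h.2 i) _⟩

theorem PBD.sim {w : ℂ} {b : GSpData n} (h : PBD b) : PBD (simTwist w b) := ⟨PB_mul_unr h.1 w, h.2⟩

theorem PBD.ind {α : GLData n} (hα : PBG α) {b : GSpData m} (hb : PBD b) (w : ℂ) : PBD (ind α b w) := by
  refine ⟨hb.1, fun i => ?_⟩
  induction i using Fin.addCases with
  | left i =>
    simp only [EP.ind, Fin.append_left]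
    exact PB_mul_unr (hα i) w
  | right i =>
    simp only [EP.ind, Fin.append_right]
    exact hb.2 i

theorem scl_zero (δ : Fin n → ℤ) (b : GSpData n) : scl δ 0 b = b := by
  funext p
  have hu : unr p 0 = 1 := yy_zero p
  simp only [scl, mul_zero, hu, mul_one]

/-- the degree of a weight -/
def dgr (δ : Fin n → ℤ) (l : ℤ × (Fin n → ℤ)) : ℤ := ∑ i, δ i * l.2 i

theorem unr_prod' {ι : Type*} (s : Finset ι) (p : Nat.Primes) (z : ℂ) (δ l : ι → ℤ) :
    ∏ i ∈ s, unr p (δ i * z) ^ l i = unr p ((∑ i ∈ s, δ i * l i : ℤ) * z) := by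
  classical
  induction s using Finset.induction_on with
  | empty =>
    rw [Finset.prod_empty, Finset.sum_empty, Int.cast_zero, zero_mul]
    exact (yy_zero p).symm
  | insert a s ha ih =>
    rw [Finset.prod_insert ha, Finset.sum_insert ha, ih, unr_zpow]
    have h := yy_add p ((l a : ℂ) * (δ a * z)) ((∑ i ∈ s, δ i * l i : ℤ) * z)
    refine h.symm.trans ?_
    change unr p _ = unr p _
    congr 1
    push_cast
    ring

theorem XW_scl (δ : Fin n → ℤ) (b : GSpData n) (M : (ℤ × (Fin n → ℤ)) →₀ ℕ) (z : ℂ) :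
    XW (scl δ z b) M = ∑ j ∈ M.support.image (dgr δ), XW b (M.filter fun l => dgr δ l = j) * tw (j * z) := by
  classical
  have h0 : ∀ j : ℤ, XW b (M.filter fun l => dgr δ l = j) =
      ∑ l ∈ M.support with dgr δ l = j, (M l) • br (fun p => (b p).1 ^ l.1 * ∏ i, (b p).2 i ^ l.2 i) := by
    intro j
    unfold XW XX
    rw [Finsupp.support_filter]
    refine Finset.sum_congr (by ext; simp) fun l hl => ?_
    rw [Finsupp.filter_apply_pos]
    exact (Finset.mem_filter.1 hl).2
  simp only [h0]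
  unfold XW XX
  rw [← Finset.sum_fiberwise_of_maps_to (s := M.support) (t := M.support.image (dgr δ))
    (g := dgr δ) (fun l hl => Finset.mem_image_of_mem _ hl)]
  refine Finset.sum_congr rfl fun j _ => ?_
  rw [Finset.sum_mul]
  refine Finset.sum_congr rfl fun l hl => ?_
  obtain ⟨_, rfl⟩ := Finset.mem_filter.1 hl
  rw [smul_mul_assoc, ← br_unr, br_mul]
  congr 2
  funext p
  simp only [scl, mul_zpow, Finset.prod_mul_distrib]
  rw [unr_prod']
  simp only [dgr]
  ac_rfl

/-- the family of a vertical line of twists -/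
theorem scl_vertical {δ : Fin n → ℤ} {b : GSpData n} (hb : PBD b) (M : (ℤ × (Fin n → ℤ)) →₀ ℕ) {a : ℝ} {T : Set ℝ}
    (hT : MeasurableSet T) (hT0 : 0 < volume T) (h : ∀ t ∈ T, XW (scl δ (a + t * I) b) M ∈ Good) :
    (∀ z : ℂ, XW (scl δ z b) M ∈ Good) ∧ ∀ j : ℤ, XW b (M.filter fun l => dgr δ l = j) ∈ Good := by
  classical
  have h1 : ∀ j ∈ M.support.image (dgr δ), XW b (M.filter fun l => dgr δ l = j) ∈ Good := by
    refine isolate_vertical (x := fun j => XW b (M.filter fun l => dgr δ l = j)) (a := a) ?_ hT hT0 ?_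
    · exact fun j _ => XW_tame hb _
    · intro t ht
      rw [← XW_scl]
      exact h t ht
  refine ⟨fun z => ?_, fun j => ?_⟩
  · rw [XW_scl]
    exact Good.sum_mem fun j hj => good_tw (h1 j hj) _
  · by_cases hj : j ∈ M.support.image (dgr δ)
    · exact h1 j hj
    · have h2 : (M.filter fun l => dgr δ l = j) = 0 := by
        ext l
        rw [Finsupp.filter_apply]
        split_ifs with h3
        · by_contra h4
          exact hj (Finset.mem_image.2 ⟨l, Finsupp.mem_support_iff.2 h4, h3⟩)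
        · rfl
      rw [h2]
      unfold XW XX
      simp [Good.zero_mem]

theorem ind_eq_scl (α : GLData n) (b : GSpData m) (w : ℂ) :
    ind α b w = scl (Fin.append (fun _ => 1) (fun _ => 0)) w (ind α b 0) := by
  funext p
  have hu : unr p 0 = 1 := yy_zero p
  simp only [ind, scl]
  congr 1
  funext i
  induction i using Fin.addCases with
  | left i => simp only [Fin.append_left, hu, mul_one, Int.cast_one, one_mul]
  | right i => simp only [Fin.append_right, Int.cast_zero, zero_mul, hu, mul_one]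

theorem dgr_eq_deg (l : ℤ × (Fin (n + m) → ℤ)) :
    dgr (Fin.append (fun _ : Fin n => 1) (fun _ : Fin m => 0)) l = deg (n := n) (m := m) l := by
  unfold dgr deg
  rw [Fin.sum_univ_add]
  simp [Fin.append_left, Fin.append_right]

/-- **Rigidity on vertical lines.** -/
theorem rigidity_vertical {α : GLData n} (hα : PBG α) {b : GSpData m} (hb : PBD b)
    (M : (ℤ × (Fin (n + m) → ℤ)) →₀ ℕ) (S : Finset Nat.Primes) {a : ℝ} {T : Set ℝ}
    (hT : MeasurableSet T) (hT0 : 0 < volume T) (h : ∀ t ∈ T, Continues (LW S (ind α b (a + t * I)) M)) :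
    (∀ z : ℂ, Continues (LW S (ind α b z) M)) ∧
      ∀ j : ℤ, Continues (LW S (ind α b 0) (M.filter fun l => deg (n := n) (m := m) l = j)) := by
  have hind : ∀ z : ℂ, PBD (ind α b z) := fun z => PBD.ind hα hb z
  have h1 := scl_vertical (δ := Fin.append (fun _ : Fin n => 1) (fun _ : Fin m => 0)) (hind 0) M hT hT0
    (fun t ht => by
      rw [← ind_eq_scl]
      exact (continues_XW' (hind _) M S).1 (h t ht))
  refine ⟨fun z => ?_, fun j => ?_⟩
  · rw [continues_XW' (hind z) M S, ind_eq_scl]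
    exact h1.1 z
  · rw [continues_XW' (hind 0) _ S]
    have h2 := h1.2 j
    simp only [dgr_eq_deg] at h2
    exact h2

/-- successive unitary inductions -/
inductive Out (A : UnitaryClass) (b₀ : GSpData m) : (M : ℕ) → GSpData M → Prop
  | refl : Out A b₀ m b₀
  | step {n M : ℕ} {α : GLData n} {b : GSpData M} (hb : Out A b₀ M b) (hα : α ∈ A.gl n) (t : ℝ) :
      Out A b₀ (n + M) (ind α b (t * I))

theorem out_mem {A : UnitaryClass} {b₀ : GSpData m} (h₀ : b₀ ∈ A.gsp m) {M : ℕ} {b : GSpData M}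
    (h : Out A b₀ M b) : b ∈ A.gsp M := by
  induction h with
  | refl => exact h₀
  | step _ hα t ih => exact A.induced _ _ _ hα _ ih t

theorem out_growth {A : UnitaryClass} {b₀ : GSpData m} (h₀ : PBD b₀) {M : ℕ} {b : GSpData M}
    (h : Out A b₀ M b) : PBD b := by
  induction h with
  | refl => exact h₀
  | step _ hα t ih => exact PBD.ind (PBG_of_growth (A.growth_gl _ _ hα)) ih _

theorem hull_growth {A : UnitaryClass} {b : GSpData m} (h : Hull A m b) : PBD b := by
  induction h with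
  | base hb => exact PBD_of_growth (A.growth_gsp _ _ hb)
  | twist w _ ih => exact ih.sim
  | induced w hα _ ih => exact PBD.ind (PBG_of_growth (A.growth_gl _ _ hα)) ih w

theorem scl_ind (δ : Fin m → ℤ) (z w : ℂ) (α : GLData n) (b : GSpData m) :
    scl (Fin.append (fun _ => 0) δ) z (ind α b w) = ind α (scl δ z b) w := by
  funext p
  have hu : unr p 0 = 1 := yy_zero p
  simp only [ind, scl]
  congr 1
  funext i
  induction i using Fin.addCases with
  | left i => simp only [Fin.append_left, Int.cast_zero, zero_mul, hu, mul_one]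
  | right i => simp only [Fin.append_right]

theorem out_ind {A : UnitaryClass} {α : GLData n} (hα : α ∈ A.gl n) {b₀ : GSpData m} {w : ℂ} {M : ℕ}
    {b' : GSpData M} (h : Out A (ind α b₀ w) M b') :
    ∃ (δ : Fin M → ℤ) (b'' : GSpData M), b' = scl δ w b'' ∧ ∀ t : ℝ, Out A b₀ M (scl δ (t * I) b'') := by
  induction h with
  | refl =>
    refine ⟨Fin.append (fun _ => 1) (fun _ => 0), ind α b₀ 0, ind_eq_scl α b₀ w, fun t => ?_⟩
    rw [← ind_eq_scl]
    exact Out.step Out.refl hα t
  | @step k M β b _ hβ s ih =>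
    obtain ⟨δ, b'', h1, h2⟩ := ih
    refine ⟨Fin.append (fun _ => 0) δ, ind β b'' (s * I), ?_, fun t => ?_⟩
    · rw [scl_ind, ← h1]
    · rw [scl_ind]
      exact Out.step (h2 t) hβ s

theorem out_twist {A : UnitaryClass} {b₀ : GSpData m} {w : ℂ} {M : ℕ} {b' : GSpData M}
    (h : Out A (simTwist w b₀) M b') : ∃ b'' : GSpData M, b' = simTwist w b'' ∧ Out A b₀ M b'' := by
  induction h with
  | refl => exact ⟨b₀, rfl, Out.refl⟩
  | @step k M β b _ hβ s ih =>
    obtain ⟨b'', h1, h2⟩ := ih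
    refine ⟨ind β b'' (s * I), ?_, Out.step h2 hβ s⟩
    rw [h1]
    rfl

/-- the part of a representation with given first exponent -/
noncomputable def partRep (ρ : GSpinRep n) (e : ℤ) : GSpinRep n where
  mult := ρ.mult.filter fun l => l.1 = e
  perm g e₀ f := by
    simp only [Finsupp.filter_apply]
    rw [ρ.perm]
  flip i e₀ f := by
    simp only [Finsupp.filter_apply]
    rw [ρ.flip]

theorem XS_sim (b : GSpData n) (ρ : GSpinRep n) (w : ℂ) :
    XS (simTwist w b) ρ = ∑ e ∈ ρ.mult.support.image Prod.fst, XS b (partRep ρ e) * tw (e * w) := by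
  classical
  have h0 : ∀ j : ℤ, XS b (partRep ρ j) =
      ∑ l ∈ ρ.mult.support with l.1 = j, (ρ.mult l) • br (fun p => (b p).1 ^ l.1 * ∏ i, (b p).2 i ^ l.2 i) := by
    intro j
    unfold XS XW XX partRep
    simp only
    rw [Finsupp.support_filter]
    refine Finset.sum_congr (by ext; simp) fun l hl => ?_
    rw [Finsupp.filter_apply_pos]
    exact (Finset.mem_filter.1 hl).2
  simp only [h0]
  unfold XS XW XX
  rw [← Finset.sum_fiberwise_of_maps_to (s := ρ.mult.support) (t := ρ.mult.support.image Prod.fst)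
    (g := Prod.fst) (fun l hl => Finset.mem_image_of_mem _ hl)]
  refine Finset.sum_congr rfl fun j _ => ?_
  rw [Finset.sum_mul]
  refine Finset.sum_congr rfl fun l hl => ?_
  obtain ⟨_, rfl⟩ := Finset.mem_filter.1 hl
  rw [smul_mul_assoc, ← br_unr, br_mul]
  congr 2
  funext p
  simp only [simTwist, mul_zpow, unr_zpow]
  ac_rfl

/-- **Q1 for a class implies Q1 for its hull.** -/
theorem hull_good {A : UnitaryClass}
    (hQ : ∀ M : ℕ, 1 ≤ M → ∀ b ∈ A.gsp M, ∀ ρ : GSpinRep M, XS b ρ ∈ Good) {m : ℕ} {b₀ : GSpData m}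
    (h : Hull A m b₀) : ∀ (M : ℕ) (b : GSpData M), Out A b₀ M b → 1 ≤ M → ∀ ρ : GSpinRep M, XS b ρ ∈ Good := by
  induction h with
  | base hb => exact fun M b hout hM ρ => hQ M hM b (out_mem hb hout) ρ
  | twist w _ ih =>
    intro M b hout hM ρ
    obtain ⟨b'', rfl, hout'⟩ := out_twist hout
    rw [XS_sim]
    exact Good.sum_mem fun e _ => good_tw (ih M b'' hout' hM _) _
  | induced w hα hb ih =>
    intro M b hout hM ρ
    obtain ⟨δ, b'', rfl, h2⟩ := out_ind hα hout
    have hb'' : PBD b'' := by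
      have h3 := out_growth (hull_growth hb) (h2 0)
      have h4 : scl δ (((0 : ℝ) : ℂ) * I) b'' = b'' := by
        rw [Complex.ofReal_zero, zero_mul, scl_zero]
      rwa [h4] at h3
    refine (scl_vertical (δ := δ) (a := 0) hb'' ρ.mult MeasurableSet.univ (by simp) (fun t _ => ?_)).1 w
    have h5 : ((0 : ℝ) : ℂ) + t * I = t * I := by simp
    rw [h5]
    exact ih M _ (h2 t) hM ρ

end Pool.Agent.K7.H58.VR
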