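import Pool.Agent.K7.H58.VR.Vert

/-!
# Isolation on vertical lines
-/

set_option autoImplicit false

namespace Pool.Agent.K7.H58.VR

open Complex Filter Topology Set Metric MeasureTheory
open Pool.Agent.K7.H58.EP

/-- the sums obtained by repeated differences -/
noncomputable def YY (J : Finset ℤ) (x : ℤ → Fam) (a : ℝ) (hh : ℤ → ℝ) (K : Finset ℤ) (v : ℝ) : Fam :=
  ∑ j ∈ J, x j * tw (j * (a + v * I)) * ∏ k ∈ K, (tw (((j : ℂ) - k) * hh k * I) - 1)

theorem YY_insert (J : Finset ℤ) (x : ℤ → Fam) (a : ℝ) (hh : ℤ → ℝ) {K : Finset ℤ} {k : ℤ} (hk : k ∉ K)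
    (v : ℝ) : YY J x a hh (insert k K) v =
      YY J x a hh K (v + hh k) * tw (-(k : ℂ) * hh k * I) - YY J x a hh K v := by
  unfold YY
  rw [Finset.sum_mul, ← Finset.sum_sub_distrib]
  refine Finset.sum_congr rfl fun j _ => ?_
  rw [Finset.prod_insert hk]
  have h1 : tw (j * (a + (v + hh k : ℝ) * I)) * tw (-(k : ℂ) * hh k * I) =
      tw (j * (a + v * I)) * tw (((j : ℂ) - k) * hh k * I) := by
    rw [← tw_add, ← tw_add]
    congr 1
    push_cast
    ring
  linear_combination (-(x j) * (∏ k ∈ K, (tw (((j : ℂ) - k) * hh k * I) - 1))) * h1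

theorem YY_good {J : Finset ℤ} {x : ℤ → Fam} {a : ℝ} {hh : ℤ → ℝ} {T : Set ℝ}
    (h : ∀ t ∈ T, ∑ j ∈ J, x j * tw (j * (a + t * I)) ∈ Good) (K : Finset ℤ) :
    ∀ v : ℝ, (∀ S ⊆ K, v + ∑ k ∈ S, hh k ∈ T) → YY J x a hh K v ∈ Good := by
  classical
  induction K using Finset.induction_on with
  | empty =>
    intro v hv
    have h1 := h v (by simpa using hv ∅ (Finset.Subset.refl _))
    unfold YY
    simpa using h1
  | insert k K hk ih =>
    intro v hv
    rw [YY_insert J x a hh hk v]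
    refine Good.sub_mem (good_tw (ih (v + hh k) fun S hS => ?_) _) (ih v fun S hS => ?_)
    · have h2 := hv (insert k S) (Finset.insert_subset_insert k hS)
      rw [Finset.sum_insert fun h3 => hk (hS h3)] at h2
      rwa [add_assoc]
    · exact hv S (hS.trans (Finset.subset_insert k K))

theorem YY_erase {J : Finset ℤ} (x : ℤ → Fam) (a : ℝ) (hh : ℤ → ℝ) {j₀ : ℤ} (hj₀ : j₀ ∈ J) (v : ℝ) :
    YY J x a hh (J.erase j₀) v =
      x j₀ * tw (j₀ * (a + v * I)) * ∏ k ∈ J.erase j₀, (tw (((j₀ : ℂ) - k) * hh k * I) - 1) := by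
  classical
  unfold YY
  rw [Finset.sum_eq_single j₀]
  · intro j hj hne
    rw [Finset.prod_eq_zero (Finset.mem_erase.2 ⟨hne, hj⟩), mul_zero]
    rw [sub_self, zero_mul, zero_mul, tw_zero, sub_self]
  · intro h
    exact absurd hj₀ h

theorem remove_factors {x₀ : Fam} (hx₀ : x₀ ∈ Tm) {j₀ : ℤ} {ε : ℝ} (hε : 0 < ε) (K : Finset ℤ)
    (hK : j₀ ∉ K) : (∀ hh : ℤ → ℝ, (∀ k, |hh k| < ε) →
      x₀ * ∏ k ∈ K, (tw (((j₀ : ℂ) - k) * hh k * I) - 1) ∈ Good) → x₀ ∈ Good := by
  classical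
  induction K using Finset.induction_on with
  | empty =>
    intro h
    simpa using h (fun _ => 0) (fun _ => by simpa using hε)
  | insert k K hk ih =>
    intro h
    refine ih (fun h1 => hK (Finset.mem_insert_of_mem h1)) fun hh hhε => ?_
    have hkj : j₀ ≠ k := fun h1 => hK (h1 ▸ Finset.mem_insert_self _ _)
    have hkj' : ((j₀ : ℝ) - k) ≠ 0 := sub_ne_zero.2 (by exact_mod_cast hkj)
    have hpos : 0 < |(j₀ : ℝ) - k| := abs_pos.2 hkj'
    set w := x₀ * ∏ k ∈ K, (tw (((j₀ : ℂ) - k) * hh k * I) - 1) with hw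
    have hwT : w ∈ Tm := Tm.mul_mem hx₀ (Tm.prod_mem fun i _ => Tm.sub_mem (tw_tame _) Tm.one_mem)
    refine good_of_small hwT (ε := ε * |(j₀ : ℝ) - k|) (by positivity) fun δ hδ => ?_
    set t : ℝ := δ / ((j₀ : ℝ) - k) with ht
    have ht' : |t| < ε := by
      rw [ht, abs_div, div_lt_iff₀ hpos]
      exact hδ
    have h2 := h (Function.update hh k t) (fun i => by
      by_cases hi : i = k
      · subst hi; rw [Function.update_self]; exact ht'
      · rw [Function.update_of_ne hi]; exact hhε i)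
    rw [Finset.prod_insert hk, Function.update_self] at h2
    have h3 : ∏ i ∈ K, (tw (((j₀ : ℂ) - i) * (Function.update hh k t i : ℝ) * I) - 1) =
        ∏ i ∈ K, (tw (((j₀ : ℂ) - i) * hh i * I) - 1) := by
      refine Finset.prod_congr rfl fun i hi => ?_
      rw [Function.update_of_ne fun h4 => hk (by rw [← h4]; exact hi)]
    rw [h3] at h2
    have h4 : ((j₀ : ℂ) - k) * t * I = δ * I := by
      have h5 : ((j₀ : ℝ) - k) * t = δ := by rw [ht]; field_simp
      have h6 : ((j₀ : ℂ) - k) * t = δ := by exact_mod_cast congrArg (fun r : ℝ => (r : ℂ)) h5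
      rw [h6]
    rw [h4] at h2
    have h7 := Good.neg_mem h2
    have h8 : -(x₀ * ((tw (δ * I) - 1) * ∏ i ∈ K, (tw (((j₀ : ℂ) - i) * hh i * I) - 1))) = w - w * tw (δ * I) := by
      rw [hw]
      ring
    rwa [h8] at h7

/-- **Isolation on a vertical line, from a set of positive measure.** -/
theorem isolate_vertical {J : Finset ℤ} {x : ℤ → Fam} (hx : ∀ j ∈ J, x j ∈ Tm) {a : ℝ} {T : Set ℝ}
    (hT : MeasurableSet T) (hT0 : 0 < volume T)
    (h : ∀ t ∈ T, ∑ j ∈ J, x j * tw (j * (a + t * I)) ∈ Good) : ∀ j ∈ J, x j ∈ Good := by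
  classical
  intro j₀ hj₀
  set K := J.erase j₀ with hK
  obtain ⟨ε, hε, hpat⟩ := exists_pattern hT hT0 (2 ^ K.card)
  have hε' : 0 < ε / (K.card + 1) := by positivity
  refine remove_factors (hx j₀ hj₀) hε' K (Finset.notMem_erase j₀ J) fun hh hhε => ?_
  obtain ⟨v, _, hv⟩ := hpat (K.powerset.image fun S => ∑ k ∈ S, hh k)
    (Finset.card_image_le.trans (by rw [Finset.card_powerset])) (by
      intro b hb
      obtain ⟨S, hS, rfl⟩ := Finset.mem_image.1 hb
      have hScard : S.card ≤ K.card := Finset.card_le_card (Finset.mem_powerset.1 hS)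
      calc |∑ k ∈ S, hh k| ≤ ∑ k ∈ S, |hh k| := Finset.abs_sum_le_sum_abs _ _
        _ ≤ ∑ k ∈ S, ε / (K.card + 1) := Finset.sum_le_sum fun k _ => (hhε k).le
        _ = S.card * (ε / (K.card + 1)) := by rw [Finset.sum_const, nsmul_eq_mul]
        _ ≤ K.card * (ε / (K.card + 1)) := by gcongr
        _ < ε := by
          have h1 : (0 : ℝ) < (K.card : ℝ) + 1 := by positivity
          rw [mul_div_assoc', div_lt_iff₀ h1]
          nlinarith)
  have h1 := YY_good (hh := hh) h K v (fun S hS => hv _ (Finset.mem_image_of_mem _ (Finset.mem_powerset.2 hS)))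
  rw [hK, YY_erase x a hh hj₀ v] at h1
  have h2 := good_tw h1 (-(j₀ * (a + v * I)))
  have h3 : x j₀ * tw (j₀ * (a + v * I)) * (∏ k ∈ J.erase j₀, (tw (((j₀ : ℂ) - k) * hh k * I) - 1)) *
      tw (-(j₀ * (a + v * I))) = x j₀ * ∏ k ∈ J.erase j₀, (tw (((j₀ : ℂ) - k) * hh k * I) - 1) := by
    have h4 : tw (j₀ * (a + v * I)) * tw (-(j₀ * (a + v * I))) = 1 := by rw [← tw_add, add_neg_cancel, tw_zero]
    linear_combination (x j₀ * ∏ k ∈ J.erase j₀, (tw (((j₀ : ℂ) - k) * hh k * I) - 1)) * h4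
  rw [h3] at h2
  exact h2

end Pool.Agent.K7.H58.VR
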