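import Pool.Agent.K7.H58.VR.Hull

/-!
# The spin L-functions of unitary representations suffice
-/

set_option autoImplicit false

namespace Pool.Agent.K7.H58.VR

open Complex Filter Topology Set Metric MeasureTheory
open Pool.Agent.K7.H58.EP

variable {n m : ℕ}

variable (A : UnitarySystem)

/-- the exterior powers of the automorphic representations of the general linear groups -/
def KG : Set Fam := {x | ∃ (n : ℕ) (α : GLData n), α ∈ A.gl n ∧ ∃ j : ℕ, x = ee (fun i => br (fun p => α p i)) j}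

/-- the ring generated by them -/
noncomputable def KK : Subring Fam := Subring.closure (KG A)

variable {A}

theorem growth_gl {α : GLData n} (h : α ∈ A.gl n) (i : Fin n) :
    PB (fun p => α p i) ∧ PB (fun p => (α p i)⁻¹) := by
  obtain ⟨c, hc⟩ := A.growth_gl n α h
  exact ⟨⟨c, fun p => (hc p i).1⟩, ⟨c, fun p => (hc p i).2⟩⟩

theorem growth_gsp0 {b : GSpData n} (h : b ∈ A.gsp n) :
    PB (fun p => (b p).1) ∧ PB (fun p => ((b p).1)⁻¹) := by
  obtain ⟨c, hc⟩ := A.growth_gsp n b h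
  exact ⟨⟨c, fun p => (hc p).1.1⟩, ⟨c, fun p => (hc p).1.2⟩⟩

theorem growth_gsp {b : GSpData n} (h : b ∈ A.gsp n) (i : Fin n) :
    PB (fun p => (b p).2 i) ∧ PB (fun p => ((b p).2 i)⁻¹) := by
  obtain ⟨c, hc⟩ := A.growth_gsp n b h
  exact ⟨⟨c, fun p => ((hc p).2 i).1⟩, ⟨c, fun p => ((hc p).2 i).2⟩⟩

theorem PB_gl {α : GLData n} (h : α ∈ A.gl n) (l : Fin n → ℤ) : PB (fun p => ∏ i, α p i ^ l i) :=
  PB.prod _ fun i _ => ((growth_gl h i).1.zpow (growth_gl h i).2 (l i))

theorem PB_gsp {b : GSpData n} (h : b ∈ A.gsp n) (l : ℤ × (Fin n → ℤ)) :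
    PB (fun p => (b p).1 ^ l.1 * ∏ i, (b p).2 i ^ l.2 i) :=
  ((growth_gsp0 h).1.zpow (growth_gsp0 h).2 l.1).mul
    (PB.prod _ fun i _ => ((growth_gsp h i).1.zpow (growth_gsp h i).2 (l.2 i)))

theorem KG_tame {x : Fam} (h : x ∈ KG A) : x ∈ Tm := by
  obtain ⟨n, α, hα, j, rfl⟩ := h
  exact ee_tame (fun i => (growth_gl hα i).1.tame) j

theorem KK_tame {x : Fam} (h : x ∈ KK A) : x ∈ Tm := by
  have h1 : KK A ≤ Tm := by
    unfold KK
    rw [Subring.closure_le]
    exact fun x hx => KG_tame hx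
  exact h1 h

/-- the Hecke characters -/
theorem char_mem {χ : Nat.Primes → ℂˣ} (h : (fun p (_ : Fin 1) => χ p) ∈ A.gl 1) : br χ ∈ KK A := by
  refine Subring.subset_closure ⟨1, _, h, 1, ?_⟩
  unfold ee
  rw [Finset.powersetCard_one, Finset.sum_map]
  simp

theorem spF_tame {b : GSpData m} (hb : b ∈ A.gsp m) : spF b ∈ Tm := by
  rw [spF_eq]
  exact Tm.mul_mem (growth_gsp0 hb).1.tame
    (Tm.prod_mem fun i _ => Tm.add_mem Tm.one_mem (growth_gsp hb i).1.tame)

theorem ind_mem {α : GLData n} (hα : α ∈ A.gl n) {b : GSpData m} (hb : b ∈ A.gsp m) (t : ℝ) :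
    ind α b (t * I) ∈ A.gsp (n + m) :=
  A.induced n m α hα b hb t

/-- isolation for sums over `0, …, n` -/
theorem isolate_range {n : ℕ} {x : ℕ → Fam} (hx : ∀ j, x j ∈ Tm)
    (h : ∀ t : ℝ, ∑ j ∈ Finset.range (n + 1), x j * tw (j * (t * I)) ∈ Good) :
    ∀ j ≤ n, x j ∈ Good := by
  intro j hj
  have h1 := isolate_vertical (J := (Finset.range (n + 1)).map Nat.castEmbedding) (x := fun i : ℤ => x i.toNat)
    (a := 0) (T := univ) ?_ MeasurableSet.univ (by simp) ?_ (j : ℤ) ?_
  · simpa using h1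
  · intro i _
    exact hx _
  · intro t _
    rw [Finset.sum_map]
    have := h t
    simpa using this
  · rw [Finset.mem_map]
    exact ⟨j, Finset.mem_range.2 (Nat.lt_succ_of_le hj), rfl⟩

/-- the hypothesis, in terms of families -/
def SpinGood (A : UnitarySystem) (𝒩 : Set ℕ) : Prop := ∀ n ∈ 𝒩, 1 ≤ n → ∀ b ∈ A.gsp n, spF b ∈ Good

theorem spin_all {𝒩 : Set ℕ} (h𝒩 : 𝒩.Infinite) (h : SpinGood A 𝒩) :
    ∀ (m : ℕ) (b : GSpData m), b ∈ A.gsp m → spF b ∈ Good := by
  have key : ∀ d m : ℕ, 1 ≤ d + m → d + m ∈ 𝒩 → ∀ b ∈ A.gsp m, spF b ∈ Good := by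
    intro d
    induction d with
    | zero =>
      intro m hm hmem b hb
      rw [zero_add] at hm hmem
      exact h m hmem hm b hb
    | succ d ih =>
      intro m _ hmem b hb
      have h1 : ∀ w : ℝ, spF (ind (fun _ _ => 1 : GLData 1) b (w * I)) ∈ Good := by
        intro w
        refine ih (1 + m) (by omega) ?_ _ (ind_mem A.trivial hb w)
        have : d + (1 + m) = d + 1 + m := by ring
        rwa [this]
      have h2 := isolate_range (n := 1)
        (x := fun j => spF b * ee (fun i : Fin 1 => br (fun p => (fun _ _ => 1 : GLData 1) p i)) j) ?_ ?_ 0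
        (by norm_num)
      · have h3 : ee (fun i : Fin 1 => br (fun p => (fun _ _ => 1 : GLData 1) p i)) 0 = 1 := by
          unfold ee
          rw [Finset.powersetCard_zero, Finset.sum_singleton, Finset.prod_empty]
        simp only [h3, mul_one] at h2
        exact h2
      · intro j
        exact Tm.mul_mem (spF_tame hb) (ee_tame (fun _ => PB.one.tame) j)
      · intro w
        rw [← spF_ind]
        exact h1 w
  intro m b hb
  obtain ⟨N, hN, hmN⟩ := h𝒩.exists_gt m
  have h1 : N - m + m = N := by omega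
  refine key (N - m) m (by omega) (by rwa [h1]) b hb

theorem spin_mul {𝒩 : Set ℕ} (h𝒩 : 𝒩.Infinite) (h : SpinGood A 𝒩) {x : Fam}
    (hx : x ∈ Submonoid.closure (KG A)) : ∀ (m : ℕ) (b : GSpData m), b ∈ A.gsp m → spF b * x ∈ Good := by
  induction hx using Submonoid.closure_induction_left with
  | one =>
    intro m b hb
    rw [mul_one]
    exact spin_all h𝒩 h m b hb
  | mul_left g hg y hy ih =>
    intro m b hb
    obtain ⟨n, α, hα, j, rfl⟩ := hg
    have hyT : y ∈ Tm := by
      have : Submonoid.closure (KG A) ≤ Tm.toSubmonoid := by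
        rw [Submonoid.closure_le]
        exact fun x hx => KG_tame hx
      exact this hy
    by_cases hj : j ≤ n
    · have h2 := isolate_range (n := n)
        (x := fun j => spF b * ee (fun i => br (fun p => α p i)) j * y) ?_ ?_ j hj
      · rw [← mul_assoc]
        exact h2
      · intro i
        exact Tm.mul_mem (Tm.mul_mem (spF_tame hb) (ee_tame (fun i => (growth_gl hα i).1.tame) i)) hyT
      · intro w
        have h3 := ih (n + m) (ind α b (w * I)) (ind_mem hα hb w)
        rw [spF_ind, Finset.sum_mul] at h3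
        have h4 : ∑ i ∈ Finset.range (n + 1),
            spF b * ee (fun i => br (fun p => α p i)) i * y * tw (i * (w * I)) =
            ∑ i ∈ Finset.range (n + 1),
            spF b * ee (fun i => br (fun p => α p i)) i * tw (i * (w * I)) * y :=
          Finset.sum_congr rfl fun i _ => by ring
        rw [h4]
        exact h3
    · rw [ee_eq_zero _ (by rw [Fintype.card_fin]; omega), zero_mul, mul_zero]
      exact Good.zero_mem

/-- **The products of the spin family with the ring `KK` are good.** -/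
theorem spin_mul_KK {𝒩 : Set ℕ} (h𝒩 : 𝒩.Infinite) (h : SpinGood A 𝒩) {x : Fam} (hx : x ∈ KK A)
    {b : GSpData m} (hb : b ∈ A.gsp m) : spF b * x ∈ Good := by
  unfold KK at hx
  rw [Subring.mem_closure_iff] at hx
  induction hx using AddSubgroup.closure_induction with
  | mem x hx => exact spin_mul h𝒩 h hx m b hb
  | zero => rw [mul_zero]; exact Good.zero_mem
  | add x y _ _ hx hy => rw [mul_add]; exact Good.add_mem hx hy
  | neg x _ hx => rw [mul_neg]; exact Good.neg_mem hx

theorem KK_good {𝒩 : Set ℕ} (h𝒩 : 𝒩.Infinite) (h : SpinGood A 𝒩) {x : Fam} (hx : x ∈ KK A) :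
    x ∈ Good := by
  have hb : (fun _ => ((1 : ℂˣ), Fin.elim0) : GSpData 0) ∈ A.gsp 0 := (A.gsp_zero _).2 A.trivial
  have h1 := spin_mul_KK h𝒩 h hx hb
  have h2 : spF (fun _ => ((1 : ℂˣ), Fin.elim0) : GSpData 0) = 1 := by
    rw [spF_eq]
    simp [br_one]
  rwa [h2, one_mul] at h1

/-- the ring generated by the exterior powers of `σ` -/
theorem evG_EG {α : GLData n} (hα : α ∈ A.gl n) {g : GR n} (hg : g ∈ EG n) : evG α g ∈ KK A := by
  have h1 : EG n ≤ (KK A).comap (evG α) := by
    unfold EG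
    rw [Subring.closure_le]
    rintro _ ⟨j, rfl⟩
    change evG α (eG n j) ∈ KK A
    unfold eG
    rw [map_ee]
    simp only [evG_bas]
    exact Subring.subset_closure ⟨n, α, hα, j, rfl⟩
  exact h1 hg

theorem evG_eS {b : GSpData m} (hb : b ∈ A.gsp m) (j : ℕ) : evG (fun p => (b p).2) (eS m j) ∈ KK A := by
  unfold eS
  rw [map_ee]
  refine Subring.subset_closure ⟨m + m + 1, _, A.standard m b hb, j, ?_⟩
  exact ee_equiv (stdEquiv m) (fun a => ev_std a) j

theorem evG_ES {b : GSpData m} (hb : b ∈ A.gsp m) {g : GR m} (hg : g ∈ ES m) :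
    evG (fun p => (b p).2) g ∈ KK A := by
  have h1 : ES m ≤ (KK A).comap (evG (fun p => (b p).2)) := by
    unfold ES
    rw [Subring.closure_le]
    rintro _ ⟨j, rfl⟩
    exact evG_eS hb j
  exact h1 hg

theorem XG_mem {α : GLData n} (hα : α ∈ A.gl n) (τ : GLRep n) : XG α τ ∈ KK A := by
  obtain ⟨K, g, hg, hfg⟩ := sym_span (f := chG τ) (fun g μ => by
    rw [coeff_chG, coeff_chG, τ.perm])
  rw [XG_eq, hfg, map_mul]
  refine (KK A).mul_mem ?_ (evG_EG hα hg)
  rw [evG_mon]
  refine char_mem ?_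
  have := A.central n α hα (-(K : ℤ))
  simpa only [Finset.prod_zpow] using this

/-- the summands of `XS` -/
theorem part_mem {b : GSpData m} (hb : b ∈ A.gsp m) (ρ : GSpinRep m) (e : ℤ) :
    ∃ x ∈ KK A, ∃ y ∈ KK A, br (fun p => (b p).1 ^ e) * evG (fun p => (b p).2) (chS ρ e) = x + spF b * y := by
  have hsim : ∀ k : ℤ, br (fun p => (b p).1 ^ (2 * k)) * evG (fun p => (b p).2) (mon (fun _ => k)) ∈ KK A := by
    intro k
    rw [evG_mon, br_mul]
    refine char_mem ?_
    have h1 := A.similitude m b hb k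
    have h2 : (fun p (_ : Fin 1) => (b p).1 ^ (2 * k) * ∏ i, (b p).2 i ^ k) =
        fun p _ => ((b p).1 ^ 2 * ∏ i, (b p).2 i) ^ k := by
      funext p _
      rw [mul_zpow, Finset.prod_zpow, zpow_mul]
      rfl
    rw [h2]
    exact h1
  rcases Int.emod_two_eq_zero_or_one e with h | h
  · obtain ⟨k, hk⟩ : ∃ k, e = 2 * k + 0 := ⟨e / 2, by omega⟩
    subst hk
    have h1 := even_span (shift_mem ρ k 0)
    refine ⟨_, (KK A).mul_mem (hsim k) (evG_ES hb h1), 0, (KK A).zero_mem, ?_⟩
    conv_lhs => rw [unshift (chS ρ (2 * k + 0)) k, map_mul]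
    rw [mul_zero, add_zero, ← mul_assoc, add_zero]
  · obtain ⟨k, hk⟩ : ∃ k, e = 2 * k + 1 := ⟨e / 2, by omega⟩
    subst hk
    obtain ⟨g, hg, hfg⟩ := odd_span (shift_mem ρ k 1)
    refine ⟨0, (KK A).zero_mem, _, (KK A).mul_mem (hsim k) (evG_ES hb hg), ?_⟩
    conv_lhs => rw [unshift (chS ρ (2 * k + 1)) k, map_mul, hfg, map_mul]
    have h2 : br (fun p => (b p).1 ^ (2 * k + 1)) = br (fun p => (b p).1) * br (fun p => (b p).1 ^ (2 * k)) := by
      rw [br_mul]
      congr 1
      funext p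
      rw [zpow_add_one, mul_comm]
    rw [h2, zero_add]
    unfold spF
    ring

theorem XS_mem {b : GSpData m} (hb : b ∈ A.gsp m) (ρ : GSpinRep m) :
    ∃ x ∈ KK A, ∃ y ∈ KK A, XS b ρ = x + spF b * y := by
  classical
  rw [XS_eq]
  have key : ∀ s : Finset ℤ, ∃ x ∈ KK A, ∃ y ∈ KK A, ∑ e ∈ s,
      br (fun p => (b p).1 ^ e) * evG (fun p => (b p).2) (chS ρ e) = x + spF b * y := by
    intro s
    induction s using Finset.induction_on with
    | empty => exact ⟨0, (KK A).zero_mem, 0, (KK A).zero_mem, by simp⟩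
    | insert a s ha ih =>
      obtain ⟨x, hx, y, hy, h1⟩ := ih
      obtain ⟨x', hx', y', hy', h2⟩ := part_mem hb ρ a
      refine ⟨x' + x, (KK A).add_mem hx' hx, y' + y, (KK A).add_mem hy' hy, ?_⟩
      rw [Finset.sum_insert ha, h1, h2]
      ring
  exact key _


end Pool.Agent.K7.H58.VR
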