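import Pool.Agent.K7.H58.VR.Taylor

/-!
# Moving the abscissa of meromorphy to the left
-/

set_option autoImplicit false

namespace Pool.Agent.K7.H58.VR

open Complex Filter Topology Set Metric
open Pool.Agent.K7.H58.EP (isOpen_hp isConnected_hp hp_mono)
open scoped Nat

/-- the zeros and poles of a meromorphic function on a half-plane form a countable set -/
theorem countable_order {c : ℝ} {F : ℂ → ℂ} (hF : MeromorphicOn F {s | c < s.re})
    (htop : ∀ z : ℂ, c < z.re → meromorphicOrderAt F z ≠ ⊤) :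
    {z : ℂ | c < z.re ∧ meromorphicOrderAt F z ≠ 0}.Countable := by
  apply IsLindelof.countable_of_isDiscrete (HereditarilyLindelofSpace.isLindelof _)
  rw [isDiscrete_iff_nhdsNE]
  intro z hz
  rw [← disjoint_iff, Filter.disjoint_principal_right]
  have h1 := hF z hz.1
  have h2 := h1.eventually_analyticAt
  have h3 : ∀ᶠ w in 𝓝[≠] z, F w ≠ 0 := (meromorphicOrderAt_ne_top_iff_eventually_ne_zero h1).1 (htop z hz.1)
  filter_upwards [h2, h3] with w hw1 hw2
  simp only [mem_compl_iff, mem_ofPred_eq, not_and, not_not]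
  intro _
  rw [hw1.meromorphicOrderAt_eq]
  rw [(hw1.analyticOrderAt_eq_zero).2 hw2]
  rfl

/-- the zeros and poles do not accumulate at the boundary, if the ratios `F(s) / F(s + it)` are
meromorphic across the boundary -/
theorem no_accumulation {c : ℝ} {F : ℂ → ℂ} (hF : MeromorphicOn F {s | c < s.re})
    (htop : ∀ z : ℂ, c < z.re → meromorphicOrderAt F z ≠ ⊤) {h : ℝ → ℂ → ℂ}
    (hh : ∀ t, MeromorphicOn (h t) univ)
    (hrel : ∀ t : ℝ, ∀ z : ℂ, c < z.re → F =ᶠ[𝓝[≠] z] fun s => h t s * F (s + t * I)) (z₀ : ℂ) :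
    ∀ᶠ z in 𝓝[≠] z₀, c < z.re → meromorphicOrderAt F z = 0 := by
  by_contra hcon
  rw [Filter.not_eventually] at hcon
  set P : Set ℂ := {z : ℂ | c < z.re ∧ meromorphicOrderAt F z ≠ 0} with hP
  have hPc : P.Countable := countable_order hF htop
  have hQc : ((fun x : ℂ × ℂ => (x.2 - x.1).im) '' (P ×ˢ P)).Countable := (hPc.prod hPc).image _
  have hall : ∀ t : ℝ, t ∈ (fun x : ℂ × ℂ => (x.2 - x.1).im) '' (P ×ˢ P) := by
    intro t
    have hre : ∀ z : ℂ, (z + t * I).re = z.re := by intro z; simp
    have hord : ∀ z : ℂ, c < z.re → meromorphicOrderAt F z =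
        meromorphicOrderAt (h t) z + meromorphicOrderAt F (z + t * I) := by
      intro z hz
      have h1 : MeromorphicAt (fun s => F (s + t * I)) z :=
        (hF (z + t * I) (by rw [mem_ofPred_eq, hre]; exact hz)).comp_analyticAt (g := fun s => s + t * I)
          (analyticAt_id.add analyticAt_const)
      have h2 : meromorphicOrderAt (fun s => F (s + t * I)) z = meromorphicOrderAt F (z + t * I) :=
        meromorphicOrderAt_fun_comp_add_const_eq_meromorphicOrderAt
      rw [meromorphicOrderAt_congr (hrel t z hz)]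
      have h3 := meromorphicOrderAt_mul (hh t z (mem_univ _)) h1
      rw [← h2]
      exact h3
    -- order of h t is zero near z₀, off z₀
    have hht : meromorphicOrderAt (h t) z₀ ≠ ⊤ := by
      intro htop'
      have h5 : ∀ᶠ z in 𝓝[≠] z₀, ∀ᶠ w in 𝓝 z, h t w = 0 := by
        rw [eventually_nhdsNE_eventually_nhds_iff]
        exact meromorphicOrderAt_eq_top_iff.1 htop'
      obtain ⟨z, hz1, hz2⟩ := (hcon.and_eventually h5).exists
      rw [Classical.not_imp] at hz1
      have h6 := hord z hz1.1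
      have h7 : meromorphicOrderAt (h t) z = ⊤ := by
        rw [meromorphicOrderAt_eq_top_iff]
        exact hz2.filter_mono nhdsWithin_le_nhds
      rw [h7, WithTop.top_add] at h6
      exact htop z hz1.1 h6
    have h0 : ∀ᶠ z in 𝓝[≠] z₀, meromorphicOrderAt (h t) z = 0 := by
      have h1 := (hh t z₀ (mem_univ _)).eventually_analyticAt
      have h3 := (meromorphicOrderAt_ne_top_iff_eventually_ne_zero (hh t z₀ (mem_univ _))).1 hht
      filter_upwards [h1, h3] with w hw1 hw2
      rw [hw1.meromorphicOrderAt_eq, (hw1.analyticOrderAt_eq_zero).2 hw2]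
      rfl
    obtain ⟨z, hz1, hz2⟩ := (hcon.and_eventually h0).exists
    rw [Classical.not_imp] at hz1
    have h6 := hord z hz1.1
    rw [hz2, zero_add] at h6
    refine ⟨(z, z + t * I), ⟨⟨hz1.1, hz1.2⟩, ⟨by simpa using hz1.1, ?_⟩⟩, by simp⟩
    rw [← h6]
    exact hz1.2
  exact absurd (hQc.mono fun t _ => hall t) (Cardinal.not_countable_real)

end Pool.Agent.K7.H58.VR
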