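import Pool.Agent.K7.H58.VR.Germs

/-!
# Taylor coefficients on a segment
-/

set_option autoImplicit false

namespace Pool.Agent.K7.H58.VR

open Complex Filter Topology Set Metric
open scoped NNReal ENNReal Nat

/-- extension by the Taylor series -/
theorem extend_ball {u : ℂ → ℂ} {q₁ : ℂ} (hu : AnalyticAt ℂ u q₁) {ρ K : ℝ} (hρ : 0 < ρ)
    (hK : ∀ n : ℕ, ‖iteratedDeriv n u q₁‖ / n ! * ρ ^ n ≤ K) :
    ∃ U : ℂ → ℂ, DifferentiableOn ℂ U (ball q₁ ρ) ∧ U =ᶠ[𝓝 q₁] u := by
  set p : FormalMultilinearSeries ℂ ℂ ℂ :=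
    FormalMultilinearSeries.ofScalars ℂ (fun n ↦ iteratedDeriv n u q₁ / n !) with hp
  have hps : HasFPowerSeriesAt u p q₁ := hu.hasFPowerSeriesAt
  have hnorm : ∀ n : ℕ, ‖p n‖ ≤ ‖iteratedDeriv n u q₁‖ / n ! := by
    intro n
    rw [hp, FormalMultilinearSeries.ofScalars_norm, norm_div]
    simp
  set r : ℝ≥0 := ⟨ρ, hρ.le⟩ with hr
  have hrad : (r : ℝ≥0∞) ≤ p.radius := by
    refine p.le_radius_of_bound K fun n => ?_
    refine le_trans ?_ (hK n)
    exact mul_le_mul_of_nonneg_right (hnorm n) (pow_nonneg hρ.le n)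
  have hr0 : 0 < r := hρ
  have hpos : 0 < p.radius := lt_of_lt_of_le (by exact_mod_cast hr0) hrad
  have hball := p.hasFPowerSeriesOnBall hpos
  have hb2 : HasFPowerSeriesOnBall (fun z => p.sum (z - q₁)) p q₁ p.radius := by
    have := hball.comp_sub q₁
    simpa using this
  refine ⟨fun z => p.sum (z - q₁), ?_, ?_⟩
  · intro z hz
    refine (hb2.analyticAt_of_mem ?_).differentiableAt.differentiableWithinAt
    rw [Metric.mem_ball] at hz
    rw [Metric.mem_eball]
    refine lt_of_lt_of_le ?_ hrad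
    rw [edist_lt_coe]
    exact hz
  · have h1 := hb2.hasFPowerSeriesAt.sub hps
    rw [sub_self] at h1
    filter_upwards [h1.eventually_eq_zero] with z hz
    exact sub_eq_zero.1 hz

theorem bound_of_interval {u : ℂ → ℂ} {q : ℂ} {a b N ρ : ℝ} (hab : a < b) (hρ : 0 < ρ) (hN : 0 ≤ N)
    (han : ∀ t ∈ Icc a b, AnalyticAt ℂ u (q + t * I))
    (h : ∀ t ∈ Icc a b, ∀ n : ℕ, ‖iteratedDeriv n u q - iteratedDeriv n u (q + t * I)‖ ≤ N * n ! / ρ ^ n) :
    ∃ K : ℝ, ∀ n : ℕ, ‖iteratedDeriv n u (q + a * I)‖ / n ! * ρ ^ n ≤ K := by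
  set v : ℕ → ℝ → ℂ := fun n t => iteratedDeriv n u (q + t * I) with hv
  have hit : ∀ (n : ℕ) (z : ℂ), AnalyticAt ℂ u z → AnalyticAt ℂ (iteratedDeriv n u) z := by
    intro n z hz
    rw [iteratedDeriv_eq_iterate]
    exact AnalyticAt.iterated_deriv hz n
  have hvd : ∀ n : ℕ, ∀ t ∈ Icc a b, HasDerivAt (v n) (I * v (n + 1) t) t := by
    intro n t ht
    have h1 : DifferentiableAt ℂ (iteratedDeriv n u) (q + t * I) :=
      (hit n _ (han t ht)).differentiableAt
    have h2 : HasDerivAt (iteratedDeriv n u) (v (n + 1) t) (q + t * I) := by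
      have := h1.hasDerivAt
      rwa [← iteratedDeriv_succ] at this
    have h3 : HasDerivAt (fun t : ℝ => q + (t : ℂ) * I) I t := by
      have h4 : HasDerivAt (fun t : ℝ => (t : ℂ)) 1 t := Complex.ofRealCLM.hasDerivAt
      have h5 := (h4.mul_const I).const_add q
      simpa using h5
    have h6 := HasDerivAt.comp t h2 h3
    rw [mul_comm] at h6
    exact h6
  have hdiff : ∀ n : ℕ, ∀ t ∈ Icc a b, ‖v n t - v n a‖ ≤ 2 * (N * n ! / ρ ^ n) := by
    intro n t ht
    have h1 := h t ht n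
    have h2 := h a ⟨le_rfl, hab.le⟩ n
    have h3 : v n t - v n a = (iteratedDeriv n u q - iteratedDeriv n u (q + a * I)) -
        (iteratedDeriv n u q - iteratedDeriv n u (q + t * I)) := by
      simp only [hv]
      ring
    rw [h3]
    refine (norm_sub_le _ _).trans ?_
    linarith
  have hmain : ∀ n : ℕ, (b - a) * ‖v (n + 1) a‖ ≤
      2 * (N * n ! / ρ ^ n) + 2 * (N * (n + 1)! / ρ ^ (n + 1)) * (b - a) := by
    intro n
    have h1 : ∀ t ∈ Icc a b, HasDerivWithinAt (fun t : ℝ => v n t - (I * v (n + 1) a) * t)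
        (I * v (n + 1) t - I * v (n + 1) a) (Icc a b) t := by
      intro t ht
      have h4 : HasDerivAt (fun t : ℝ => (t : ℂ)) 1 t := Complex.ofRealCLM.hasDerivAt
      have h5 := (hvd n t ht).sub (h4.const_mul (I * v (n + 1) a))
      rw [mul_one] at h5
      exact h5.hasDerivWithinAt
    have h2 : ∀ t ∈ Icc a b, ‖I * v (n + 1) t - I * v (n + 1) a‖ ≤ 2 * (N * (n + 1)! / ρ ^ (n + 1)) := by
      intro t ht
      rw [← mul_sub, norm_mul, norm_I, one_mul]
      exact hdiff (n + 1) t ht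
    have h3 := (convex_Icc a b).norm_image_sub_le_of_norm_hasDerivWithin_le h1 h2
      (left_mem_Icc.2 hab.le) (right_mem_Icc.2 hab.le)
    have h4 : ‖((b : ℝ) - a)‖ = b - a := by rw [Real.norm_eq_abs, abs_of_pos (by linarith)]
    rw [h4] at h3
    have h5 : (I * v (n + 1) a) * ((b : ℂ) - a) = (v n b - v n a) -
        ((v n b - I * v (n + 1) a * (b : ℂ)) - (v n a - I * v (n + 1) a * (a : ℂ))) := by ring
    have h6 : ‖(I * v (n + 1) a) * ((b : ℂ) - a)‖ = (b - a) * ‖v (n + 1) a‖ := by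
      rw [norm_mul, norm_mul, norm_I, one_mul, ← Complex.ofReal_sub, Complex.norm_real, h4, mul_comm]
    rw [← h6, h5]
    refine (norm_sub_le _ _).trans ?_
    exact add_le_add (hdiff n b (right_mem_Icc.2 hab.le)) h3
  refine ⟨max ‖v 0 a‖ (2 * N * (1 + ρ / (b - a))), fun n => ?_⟩
  change ‖v n a‖ / n ! * ρ ^ n ≤ _
  cases n with
  | zero => simp
  | succ n =>
    refine le_trans ?_ (le_max_right _ _)
    have hba : 0 < b - a := by linarith
    have hn1 : (0 : ℝ) < ((n + 1)! : ℝ) := by exact_mod_cast Nat.factorial_pos _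
    have hn0 : (0 : ℝ) < (n ! : ℝ) := by exact_mod_cast Nat.factorial_pos _
    have h1 := hmain n
    have h2 : ‖v (n + 1) a‖ ≤ 2 * (N * n ! / ρ ^ n) / (b - a) + 2 * (N * (n + 1)! / ρ ^ (n + 1)) := by
      rw [← le_div_iff₀' hba] at h1
      refine h1.trans (le_of_eq ?_)
      field_simp
    calc ‖v (n + 1) a‖ / (n + 1)! * ρ ^ (n + 1)
        ≤ (2 * (N * n ! / ρ ^ n) / (b - a) + 2 * (N * (n + 1)! / ρ ^ (n + 1))) / (n + 1)! * ρ ^ (n + 1) := by
          gcongr
      _ = 2 * N * (ρ / ((b - a) * (n + 1)) + 1) := by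
          rw [Nat.factorial_succ]
          push_cast
          field_simp
          ring
      _ ≤ 2 * N * (1 + ρ / (b - a)) := by
          have h3 : ρ / ((b - a) * (n + 1)) ≤ ρ / (b - a) := by
            apply div_le_div_of_nonneg_left hρ.le hba
            have : (0 : ℝ) ≤ n := Nat.cast_nonneg n
            nlinarith
          have h4 : 0 ≤ 2 * N := by linarith
          nlinarith

end Pool.Agent.K7.H58.VR
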