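import Pool.Agent.K7.H58.VR.Cross
import Pool.Agent.K7.H58.EP.Final

/-!
# Rigidity on vertical lines
-/

set_option autoImplicit false

namespace Pool.Agent.K7.H58.VR

open Complex Filter Topology Set Metric MeasureTheory
open Pool.Agent.K7.H58.EP

/-- a family with `x - T^{it} x` good for all real `t` is good -/
theorem good_of_vertical {x : Fam} (hx : x ∈ Tm) (h : ∀ t : ℝ, x - x * tw (t * I) ∈ Good) : x ∈ Good := by
  obtain ⟨c₀, hc₀⟩ := exists_an hx
  refine ⟨hx, ?_⟩
  set f : ℂ → ℂ := fun s => Complex.exp (Lam x s) with hf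
  have hfd : DifferentiableOn ℂ f {s : ℂ | c₀ < s.re} := hc₀.2.cexp
  suffices hall : ∀ c, Ext f c by
    obtain ⟨F, hF, hF'⟩ := ext_univ hfd hall
    exact ⟨F, hF, c₀, hF'⟩
  refine ext_all (c := c₀) hfd ⟨f, fun s hs => ((hfd.analyticOnNhd (isOpen_hp c₀)) s hs).meromorphicAt, c₀,
    fun _ _ => rfl⟩ ?_
  rintro c ⟨F, hF, d, hd⟩
  have hfac : ∀ (t : ℝ) (s : ℂ), c₀ < s.re → Lam (x - x * tw (t * I)) s = Lam x s - Lam x (s + t * I) := by
    intro t s hs
    have hs' : c₀ < (s + t * I).re := by simpa using hs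
    have h4 : Summable fun p : Nat.Primes => ell ((yy p s : ℂˣ) : ℂ) ((x * tw (t * I)) p) :=
      summable_tw (hc₀.1 _ hs')
    have h6 : Summable fun p : Nat.Primes => ell ((yy p s : ℂˣ) : ℂ) ((-(x * tw (t * I))) p) := by
      refine h4.neg.congr fun p => ?_
      rw [Pi.neg_apply, map_neg]
    rw [sub_eq_add_neg, Lam_add (hc₀.1 s hs) h6, Lam_neg, Lam_tw, sub_eq_add_neg]
  set hm : ℝ → ℂ → ℂ := fun t => Classical.choose (h t).2
  have hm1 : ∀ t, MeromorphicOn (hm t) univ := fun t => (Classical.choose_spec (h t).2).1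
  have hm2 : ∀ t, ∃ b : ℝ, ∀ s : ℂ, b < s.re → hm t s = Complex.exp (Lam (x - x * tw (t * I)) s) :=
    fun t => (Classical.choose_spec (h t).2).2
  have hrel : ∀ t : ℝ, ∀ z : ℂ, c < z.re → F =ᶠ[𝓝[≠] z] fun s => hm t s * F (s + t * I) := by
    intro t z hz
    obtain ⟨b, hb⟩ := hm2 t
    refine eq_near (a := c) (d := max b (max c₀ d)) hF ?_ ?_ hz
    · intro w hw
      refine (hm1 t w (mem_univ _)).mul ?_
      refine (hF (w + t * I) ?_).comp_analyticAt (g := fun s => s + t * I) (analyticAt_id.add analyticAt_const)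
      change c < (w + t * I).re
      have : c < w.re := hw
      simpa using this
    · intro s hs
      have hs1 : b < s.re := lt_of_le_of_lt (le_max_left _ _) hs
      have hs2 : c₀ < s.re := lt_of_le_of_lt ((le_max_left _ _).trans (le_max_right _ _)) hs
      have hs3 : d < s.re := lt_of_le_of_lt ((le_max_right _ _).trans (le_max_right _ _)) hs
      have hs4 : d < (s + t * I).re := by simpa using hs3
      rw [hd s hs3, hb s hs1, hfac t s hs2, hd _ hs4]
      simp only [hf]
      rw [← Complex.exp_add, sub_add_cancel]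
  have htop : ∀ z : ℂ, c < z.re → meromorphicOrderAt F z ≠ ⊤ := by
    set r : ℝ := max c (max c₀ d) + 1 with hr
    have hr1 : c < r := by have := le_max_left c (max c₀ d); linarith
    have hr2 : c₀ < r := by
      have := (le_max_left c₀ d).trans (le_max_right c (max c₀ d)); linarith
    have hr3 : d < r := by
      have := (le_max_right c₀ d).trans (le_max_right c (max c₀ d)); linarith
    have h1 : meromorphicOrderAt F (r : ℂ) ≠ ⊤ := by
      intro htop
      rw [meromorphicOrderAt_eq_top_iff] at htop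
      have h2 := near_of_far hd (z := (r : ℂ)) (by simpa using hr3)
      obtain ⟨z, hz1, hz2⟩ := (htop.and h2).exists
      rw [hz1] at hz2
      exact Complex.exp_ne_zero _ hz2.symm
    intro z hz
    exact (hF.exists_meromorphicOrderAt_ne_top_iff_forall (isConnected_hp c)).1
      ⟨⟨(r : ℂ), by simpa using hr1⟩, h1⟩ ⟨z, hz⟩
  obtain ⟨η, G, hη, hG, hG2⟩ := push hF htop hm1 hrel
  refine ⟨η, hη, G, hG, max c (max c₀ d), fun s hs => ?_⟩
  have hs1 : c < s.re := lt_of_le_of_lt (le_max_left _ _) hs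
  have hs2 : c₀ < s.re := lt_of_le_of_lt ((le_max_left _ _).trans (le_max_right _ _)) hs
  have hs3 : d < s.re := lt_of_le_of_lt ((le_max_right _ _).trans (le_max_right _ _)) hs
  exact hG2 s f hs1 (near_of_far hd hs3) ((hfd.analyticOnNhd (isOpen_hp c₀)) s hs2).continuousAt

/-- the same for small `t` -/
theorem good_of_small {x : Fam} (hx : x ∈ Tm) {ε : ℝ} (hε : 0 < ε)
    (h : ∀ t : ℝ, |t| < ε → x - x * tw (t * I) ∈ Good) : x ∈ Good := by
  refine good_of_vertical hx fun t => ?_
  obtain ⟨N, hN⟩ := exists_nat_gt (|t| / ε)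
  have hN0 : (0 : ℝ) < N := lt_of_le_of_lt (by positivity) hN
  have hsmall : |t / N| < ε := by
    rw [abs_div, abs_of_pos hN0, div_lt_iff₀ hN0]
    rw [div_lt_iff₀ hε] at hN
    linarith
  have hk : ∀ k : ℕ, x - x * tw (k * ((t / N : ℝ) * I)) ∈ Good := by
    intro k
    induction k with
    | zero => simp [tw_zero, Good.zero_mem]
    | succ k ih =>
      have h1 : x - x * tw ((k + 1 : ℕ) * ((t / N : ℝ) * I)) = (x - x * tw (k * ((t / N : ℝ) * I))) +
          (x - x * tw ((t / N : ℝ) * I)) * tw (k * ((t / N : ℝ) * I)) := by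
        have h2 : tw ((k + 1 : ℕ) * ((t / N : ℝ) * I)) = tw ((t / N : ℝ) * I) * tw (k * ((t / N : ℝ) * I)) := by
          rw [← tw_add]
          congr 1
          push_cast
          ring
        rw [h2]
        ring
      rw [h1]
      exact Good.add_mem ih (good_tw (h _ hsmall) _)
  have h1 := hk N
  have h2 : (N : ℂ) * ((t / N : ℝ) * I) = t * I := by
    have : (N : ℂ) ≠ 0 := by exact_mod_cast hN0.ne'
    push_cast
    field_simp
  rwa [h2] at h1

/-- patterns in sets of positive measure -/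
theorem exists_pattern {T : Set ℝ} (hT : MeasurableSet T) (hT0 : 0 < volume T) (N : ℕ) :
    ∃ ε : ℝ, 0 < ε ∧ ∀ A : Finset ℝ, A.card ≤ N → (∀ a ∈ A, |a| < ε) → ∃ v ∈ T, ∀ a ∈ A, v + a ∈ T := by
  obtain ⟨K, hKT, hK, hK0⟩ := hT.exists_lt_isCompact hT0
  have hKfin : volume K ≠ ⊤ := hK.measure_lt_top.ne
  set μ := volume K with hμ
  have hμ1 : μ < μ + μ / (N + 1) := by
    refine ENNReal.lt_add_right hKfin ?_
    exact (ENNReal.div_pos hK0.ne' (by finiteness)).ne'
  obtain ⟨U, hKU, hU, hUμ⟩ := K.exists_isOpen_lt_of_lt (μ := volume) _ hμ1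
  obtain ⟨ε, hε, hεU⟩ := hK.exists_thickening_subset_open hU hKU
  refine ⟨ε, hε, fun A hA hAε => ?_⟩
  by_contra hcon
  push Not at hcon
  -- K is covered by the sets of v with v + a ∉ K
  have hcov : K ⊆ ⋃ a ∈ A, (fun v => v + a) ⁻¹' (U \ K) := by
    intro v hv
    obtain ⟨a, ha, hva⟩ := hcon v (hKT hv)
    rw [mem_iUnion₂]
    refine ⟨a, ha, ?_, fun h => hva (hKT h)⟩
    refine hεU (Metric.mem_thickening_iff.2 ⟨v, hv, ?_⟩)
    rw [Real.dist_eq, add_sub_cancel_left]
    exact hAε a ha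
  have hUK : volume (U \ K) < μ / (N + 1) := by
    rw [measure_sdiff hKU hK.measurableSet.nullMeasurableSet hKfin]
    exact ENNReal.sub_lt_of_lt_add (measure_mono hKU) (by rw [add_comm]; exact hUμ)
  have h1 : μ ≤ N * volume (U \ K) := by
    calc μ ≤ volume (⋃ a ∈ A, (fun v => v + a) ⁻¹' (U \ K)) := measure_mono hcov
      _ ≤ ∑ a ∈ A, volume ((fun v => v + a) ⁻¹' (U \ K)) := measure_biUnion_finset_le _ _
      _ = ∑ a ∈ A, volume (U \ K) := Finset.sum_congr rfl fun a _ => measure_preimage_add_right _ _ _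
      _ = A.card * volume (U \ K) := by rw [Finset.sum_const, nsmul_eq_mul]
      _ ≤ N * volume (U \ K) := by gcongr
  have h2 : (N : ENNReal) * volume (U \ K) ≤ (N + 1) * volume (U \ K) := by
    gcongr
    exact le_self_add
  have h3 : ((N : ENNReal) + 1) * volume (U \ K) < μ := by
    rw [ENNReal.lt_div_iff_mul_lt (Or.inl (by simp)) (Or.inl (by finiteness))] at hUK
    rwa [mul_comm] at hUK
  exact absurd (h1.trans h2) (not_le.2 h3)

end Pool.Agent.K7.H58.VR
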